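import Mathlib

/-!
# Khintchin sequences: definitions and a base set with disjoint preimages
-/

namespace Pool.Agent.X143.KH

open MeasureTheory Filter Topology

/-- The average `(1/N) ∑_{n=1}^N f(lam_n x)` on the circle. -/
noncomputable def avg (lam : ℕ → ℕ) (f : UnitAddCircle → ℝ) (N : ℕ) (x : UnitAddCircle) : ℝ :=
  (∑ n ∈ Finset.Icc 1 N, f (lam n • x)) / N

/-- `lam` is an `L^p`-Khintchin sequence. -/
def Khintchin (p : ENNReal) (lam : ℕ → ℕ) : Prop :=
  ∀ f : UnitAddCircle → ℝ, MemLp f p volume →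
    ∀ᵐ x : UnitAddCircle, Tendsto (fun N => avg lam f N x) atTop (𝓝 (∫ y, f y))

/-- Multiplication by a positive integer preserves the measure. -/
theorem vol_preimage {m : ℕ} (hm : 0 < m) {B : Set UnitAddCircle} (hB : MeasurableSet B) :
    volume {x : UnitAddCircle | m • x ∈ B} = volume B := by
  rcases Nat.eq_or_lt_of_le (Nat.succ_le_of_lt hm) with h | h
  · have : m = 1 := h.symm
    subst this
    simp
  · exact (AddCircle.ergodic_nsmul h).measure_preimage hB.nullMeasurableSet

theorem measurable_nsmul' (m : ℕ) : Measurable (fun x : UnitAddCircle => m • x) := by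
  fun_prop

theorem meas_preimage (m : ℕ) {B : Set UnitAddCircle} (hB : MeasurableSet B) :
    MeasurableSet {x : UnitAddCircle | m • x ∈ B} :=
  measurable_nsmul' m hB

theorem exists_base (Λ : Finset ℕ) :
    ∃ B : Set UnitAddCircle, MeasurableSet B ∧ 0 < volume B ∧
      ∀ m ∈ Λ, ∀ m' ∈ Λ, m < m' →
        Disjoint {x : UnitAddCircle | m • x ∈ B} {x : UnitAddCircle | m' • x ∈ B} := by
  obtain ⟨Mx, hMx⟩ : ∃ Mx : ℕ, ∀ m ∈ Λ, m + 1 ≤ Mx := by
    refine ⟨Λ.sup id + 1, fun m hm => ?_⟩
    have := Finset.le_sup (f := id) hm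
    simpa using this
  set M : ℝ := (Mx : ℝ) + 1 with hM
  have hM0 : 1 ≤ M := by rw [hM]; have : (0 : ℝ) ≤ Mx := by positivity
                         linarith
  set η : ℝ := 1 / (2 * M) with hη
  have hη0 : 0 < η := by positivity
  set B : Set UnitAddCircle := (fun r : ℝ => (r : UnitAddCircle)) '' (Set.Ioo (η * (1 - η)) η) with hB
  have hopen : IsOpen B := by
    apply QuotientAddGroup.isOpenMap_coe
    exact isOpen_Ioo
  have hη1 : η ≤ 1 / 2 := by
    rw [hη, div_le_div_iff₀ (by positivity) (by norm_num)]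
    linarith
  have hne : (Set.Ioo (η * (1 - η)) η).Nonempty := by
    apply Set.nonempty_Ioo.2
    nlinarith
  refine ⟨B, hopen.measurableSet, hopen.measure_pos volume (hne.image _), ?_⟩
  intro m hm m' hm' hlt
  rw [Set.disjoint_left]
  intro x
  induction x using QuotientAddGroup.induction_on with
  | H r =>
  intro h1 h2
  simp only [Set.mem_ofPred_eq] at h1 h2
  obtain ⟨y, ⟨hy1, hy2⟩, hy⟩ := h1
  obtain ⟨y', ⟨hy1', hy2'⟩, hy'⟩ := h2
  have e1 : ∃ k : ℤ, (m : ℝ) * r = y + k := by
    have h3 : (((m : ℝ) * r - y : ℝ) : UnitAddCircle) = 0 := by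
      have : (((m : ℝ) * r : ℝ) : UnitAddCircle) = m • (r : UnitAddCircle) := by
        rw [← nsmul_eq_mul]; rfl
      rw [AddCircle.coe_sub, this]
      simp only at hy
      rw [hy]
      exact sub_self _
    rw [AddCircle.coe_eq_zero_iff] at h3
    obtain ⟨k, hk⟩ := h3
    refine ⟨k, ?_⟩
    have : (k : ℝ) = m * r - y := by simpa using hk
    linarith
  have e2 : ∃ k : ℤ, (m' : ℝ) * r = y' + k := by
    have h3 : (((m' : ℝ) * r - y' : ℝ) : UnitAddCircle) = 0 := by
      have : (((m' : ℝ) * r : ℝ) : UnitAddCircle) = m' • (r : UnitAddCircle) := by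
        rw [← nsmul_eq_mul]; rfl
      rw [AddCircle.coe_sub, this]
      simp only at hy'
      rw [hy']
      exact sub_self _
    rw [AddCircle.coe_eq_zero_iff] at h3
    obtain ⟨k, hk⟩ := h3
    refine ⟨k, ?_⟩
    have : (k : ℝ) = m' * r - y' := by simpa using hk
    linarith
  obtain ⟨k, hk⟩ := e1
  obtain ⟨k', hk'⟩ := e2
  have hmM : (m : ℝ) + 1 ≤ M := by
    have : ((m + 1 : ℕ) : ℝ) ≤ Mx := by exact_mod_cast hMx m hm
    push_cast at this
    linarith
  have hmM' : (m' : ℝ) + 1 ≤ M := by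
    have : ((m' + 1 : ℕ) : ℝ) ≤ Mx := by exact_mod_cast hMx m' hm'
    push_cast at this
    linarith
  have hm0 : (0 : ℝ) ≤ m := by positivity
  have hm0' : (0 : ℝ) ≤ m' := by positivity
  have hy0 : 0 < y := lt_trans (by nlinarith) hy1
  have hy0' : 0 < y' := lt_trans (by nlinarith) hy1'
  have hMη : M * η = 1 / 2 := by
    rw [hη]; field_simp
  -- the integer
  have e3 : (m' : ℝ) * k - m * k' = m * y' - m' * y := by
    have : (m' : ℝ) * (m * r) = m * (m' * r) := by ring
    rw [hk, hk'] at this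
    linarith
  have e4 : (m : ℝ) * y' < 1 / 2 := by
    have : (m : ℝ) * y' ≤ (m : ℝ) * η := by gcongr
    nlinarith
  have e5 : (m' : ℝ) * y < 1 / 2 := by
    have : (m' : ℝ) * y ≤ (m' : ℝ) * η := by gcongr
    nlinarith
  have e6 : (m' : ℤ) * k - m * k' = 0 := by
    have h7 : ((((m' : ℤ) * k - m * k' : ℤ)) : ℝ) = m * y' - m' * y := by
      push_cast; exact e3
    have h8 : (0 : ℝ) ≤ m * y' := by positivity
    have h9 : (0 : ℝ) ≤ m' * y := by positivity
    have h10 : ((((m' : ℤ) * k - m * k' : ℤ)) : ℝ) < 1 := by rw [h7]; linarith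
    have h11 : (-1 : ℝ) < ((((m' : ℤ) * k - m * k' : ℤ)) : ℝ) := by rw [h7]; linarith
    have h12 : (m' : ℤ) * k - m * k' < 1 := by exact_mod_cast h10
    have h13 : -1 < (m' : ℤ) * k - m * k' := by exact_mod_cast h11
    omega
  have e7 : (m : ℝ) * y' = m' * y := by
    have : ((((m' : ℤ) * k - m * k' : ℤ)) : ℝ) = 0 := by exact_mod_cast e6
    push_cast at this
    linarith
  have hlt' : (m : ℝ) + 1 ≤ m' := by exact_mod_cast hlt
  have e8 : ((m : ℝ) + 1) * (η * (1 - η)) < m * η ∨ (m : ℝ) = 0 := by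
    rcases eq_or_lt_of_le hm0 with h | h
    · right; exact h.symm
    · left
      calc ((m : ℝ) + 1) * (η * (1 - η)) ≤ m' * (η * (1 - η)) := by
            apply mul_le_mul_of_nonneg_right hlt'
            nlinarith
        _ ≤ m' * y := by gcongr
        _ = m * y' := e7.symm
        _ < m * η := by gcongr
  rcases e8 with h | h
  · nlinarith
  · rw [h] at e7 hlt'
    have : 0 < (m' : ℝ) * y := by
      have : (0 : ℝ) < m' := by linarith
      positivity
    linarith

end Pool.Agent.X143.KH
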