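import Pool.Agent.X143.KH.Mix

/-!
# Boosting and transference
-/

namespace Pool.Agent.X143.KH

open MeasureTheory Filter Topology

theorem avg_mono {lam : ℕ → ℕ} {E E' : Set UnitAddCircle} (h : E ⊆ E') (N : ℕ)
    (x : UnitAddCircle) :
    avg lam (E.indicator 1) N x ≤ avg lam (E'.indicator 1) N x := by
  unfold avg
  apply div_le_div_of_nonneg_right _ (by positivity)
  apply Finset.sum_le_sum
  intro n _
  exact Set.indicator_le_indicator_of_subset h (fun _ => zero_le_one) _

theorem vol_univ : (volume : Measure UnitAddCircle).real Set.univ = 1 := by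
  simp [Measure.real]

theorem real_le_one (G : Set UnitAddCircle) : volume.real G ≤ 1 := by
  exact (measureReal_mono (Set.subset_univ G) (by finiteness)).trans vol_univ.le

theorem avg_dil {lam : ℕ → ℕ} {E : Set UnitAddCircle} (K N : ℕ) (x : UnitAddCircle) :
    avg lam ({y : UnitAddCircle | K • y ∈ E}.indicator 1) N x =
      avg lam (E.indicator 1) N (K • x) := by
  unfold avg
  congr 1
  apply Finset.sum_congr rfl
  intro n _
  have hc : lam n • (K • x) = K • (lam n • x) := smul_comm _ _ _
  by_cases h : K • (lam n • x) ∈ E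
  · rw [Set.indicator_of_mem (show lam n • x ∈ {y : UnitAddCircle | K • y ∈ E} from h),
      Set.indicator_of_mem (show lam n • K • x ∈ E by rw [hc]; exact h)]
    rfl
  · rw [Set.indicator_of_notMem (show lam n • x ∉ {y : UnitAddCircle | K • y ∈ E} from h),
      Set.indicator_of_notMem (show lam n • K • x ∉ E by rw [hc]; exact h)]

theorem boost_aux {lam : ℕ → ℕ} {N0 : ℕ} {δ : ℝ} {E G : Set UnitAddCircle}
    (hE : MeasurableSet E) (hG : MeasurableSet G)
    (hEG : ∀ x ∈ G, ∃ N, N0 ≤ N ∧ δ ≤ avg lam (E.indicator 1) N x) (r : ℕ) :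
    ∃ E' G' : Set UnitAddCircle, MeasurableSet E' ∧ MeasurableSet G' ∧
      volume.real E' ≤ r * volume.real E ∧ volume.real G'ᶜ ≤ (1 - volume.real G / 2) ^ r ∧
      ∀ x ∈ G', ∃ N, N0 ≤ N ∧ δ ≤ avg lam (E'.indicator 1) N x := by
  induction r with
  | zero =>
    refine ⟨∅, ∅, MeasurableSet.empty, MeasurableSet.empty, by simp, ?_, by simp⟩
    rw [Set.compl_empty, pow_zero]
    exact vol_univ.le
  | succ r ih =>
    obtain ⟨E', G', hE', hG', h1, h2, h3⟩ := ih
    obtain ⟨K, hK, hgood⟩ := exists_good hG'.compl hG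
    have hmE := meas_preimage K hE
    have hmG := meas_preimage K hG
    refine ⟨E' ∪ {x | K • x ∈ E}, G' ∪ {x | K • x ∈ G}, hE'.union hmE, hG'.union hmG, ?_, ?_, ?_⟩
    · calc volume.real (E' ∪ {x : UnitAddCircle | K • x ∈ E})
          ≤ volume.real E' + volume.real {x : UnitAddCircle | K • x ∈ E} :=
            measureReal_union_le _ _
        _ ≤ r * volume.real E + volume.real E := by
            apply add_le_add h1
            rw [Measure.real, vol_preimage hK hE, Measure.real]
        _ = _ := by push_cast; ring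
    · have hset : (G' ∪ {x : UnitAddCircle | K • x ∈ G})ᶜ = G'ᶜ \ {x | K • x ∈ G} := by
        ext x; simp
      rw [hset]
      have h4 := measureReal_sdiff_add_inter (μ := volume) (s := G'ᶜ) hmG (by finiteness)
      have h5 : volume.real G ≤ 1 := real_le_one G
      have h6 : 0 ≤ volume.real G := measureReal_nonneg
      have h7 : 0 ≤ volume.real G'ᶜ := measureReal_nonneg
      calc volume.real (G'ᶜ \ {x : UnitAddCircle | K • x ∈ G})
          ≤ volume.real G'ᶜ * (1 - volume.real G / 2) := by nlinarith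
        _ ≤ (1 - volume.real G / 2) ^ r * (1 - volume.real G / 2) := by
            apply mul_le_mul_of_nonneg_right h2
            linarith
        _ = _ := by ring
    · rintro x (hx | hx)
      · obtain ⟨N, hN, hav⟩ := h3 x hx
        exact ⟨N, hN, hav.trans (avg_mono Set.subset_union_left N x)⟩
      · obtain ⟨N, hN, hav⟩ := hEG (K • x) hx
        refine ⟨N, hN, hav.trans ?_⟩
        rw [← avg_dil]
        exact avg_mono Set.subset_union_right N x

theorem boost {lam : ℕ → ℕ} {N0 : ℕ} {δ c : ℝ} (hc : 0 < c) {E G : Set UnitAddCircle}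
    (hE : MeasurableSet E) (hG : MeasurableSet G) (hpos : 0 < volume.real G)
    (hcE : c * volume.real E ≤ volume.real G)
    (hEG : ∀ x ∈ G, ∃ N, N0 ≤ N ∧ δ ≤ avg lam (E.indicator 1) N x) :
    ∃ E' G' : Set UnitAddCircle, MeasurableSet E' ∧ MeasurableSet G' ∧
      volume.real E' ≤ 3 / c ∧ 1 / 2 ≤ volume.real G' ∧
      ∀ x ∈ G', ∃ N, N0 ≤ N ∧ δ ≤ avg lam (E'.indicator 1) N x := by
  set g := volume.real G with hg
  have hg1 : g ≤ 1 := real_le_one G
  obtain ⟨E', G', hE', hG', h1, h2, h3⟩ := boost_aux hE hG hEG ⌈2 / g⌉₊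
  refine ⟨E', G', hE', hG', ?_, ?_, h3⟩
  · have hr : ((⌈2 / g⌉₊ : ℕ) : ℝ) ≤ 3 / g := by
      have := Nat.ceil_lt_add_one (show 0 ≤ 2 / g by positivity)
      have h4 : 2 / g + 1 ≤ 3 / g := by
        rw [div_add_one hpos.ne', div_le_div_iff_of_pos_right hpos]
        linarith
      linarith
    have hE0 : volume.real E ≤ g / c := by
      rw [le_div_iff₀ hc]; linarith
    calc volume.real E' ≤ ((⌈2 / g⌉₊ : ℕ) : ℝ) * volume.real E := h1
      _ ≤ (3 / g) * (g / c) := by
          apply mul_le_mul hr hE0 measureReal_nonneg (by positivity)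
      _ = 3 / c := by field_simp
  · have h4 : (1 - g / 2) ^ (⌈2 / g⌉₊) ≤ 1 / 2 := by
      have h5 : 1 - g / 2 ≤ Real.exp (-(g / 2)) := by
        have := Real.add_one_le_exp (-(g / 2))
        linarith
      calc (1 - g / 2) ^ (⌈2 / g⌉₊) ≤ (Real.exp (-(g / 2))) ^ (⌈2 / g⌉₊) := by
            apply pow_le_pow_left₀ _ h5
            linarith
        _ = Real.exp (-((⌈2 / g⌉₊ : ℝ) * (g / 2))) := by
            rw [← Real.exp_nat_mul]; congr 1; ring
        _ ≤ Real.exp (-1) := by
            apply Real.exp_le_exp.2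
            have h6 : 2 / g ≤ (⌈2 / g⌉₊ : ℝ) := Nat.le_ceil _
            have h7 : 1 = (2 / g) * (g / 2) := by field_simp
            have h8 : (2 / g) * (g / 2) ≤ (⌈2 / g⌉₊ : ℝ) * (g / 2) := by gcongr
            linarith
        _ ≤ 1 / 2 := by
            rw [Real.exp_neg, inv_le_comm₀ (Real.exp_pos 1) (by norm_num)]
            have := Real.exp_one_gt_d9
            norm_num
            linarith
    have h5 := measureReal_compl (μ := (volume : Measure UnitAddCircle)) hG'
    have h6 : (volume : Measure UnitAddCircle).real Set.univ = 1 := by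
      simp [Measure.real]
    rw [h6] at h5
    linarith

/-- The label `2^i 3^(u-i)` of the pair `(u, i)`. -/
def lab (z : ℕ × ℕ) : ℕ := 2 ^ z.2 * 3 ^ (z.1 - z.2)

theorem lab_inj {z z' : ℕ × ℕ} (h : z.2 ≤ z.1) (h' : z'.2 ≤ z'.1) (he : lab z = lab z') :
    z = z' := by
  unfold lab at he
  have h2 : ∀ i j : ℕ, padicValNat 2 (2 ^ i * 3 ^ j) = i := by
    intro i j
    rw [padicValNat.mul (by positivity) (by positivity), padicValNat.prime_pow,
      padicValNat_prime_prime_pow j (by norm_num)]
    simp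
  have h3 : ∀ i j : ℕ, padicValNat 3 (2 ^ i * 3 ^ j) = j := by
    intro i j
    rw [padicValNat.mul (by positivity) (by positivity), padicValNat.prime_pow,
      padicValNat_prime_prime_pow i (by norm_num)]
    simp
  have e2 := congrArg (padicValNat 2) he
  have e3 := congrArg (padicValNat 3) he
  rw [h2, h2] at e2
  rw [h3, h3] at e3
  apply Prod.ext <;> omega

theorem transfer {a lam : ℕ → ℕ} (ha : ∀ n, a n ≤ n)
    (hlam : ∀ n, lam n = 2 ^ (a n) * 3 ^ (n - a n)) {N0 : ℕ} {S Z : Finset (ℕ × ℕ)}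
    (hS : ∀ s ∈ S, s.2 ≤ s.1) (hZ : ∀ z ∈ Z, z.2 ≤ z.1) (hZne : Z.Nonempty)
    (hpat : ∀ z ∈ Z, ∃ N, N0 ≤ N ∧ 0 < N ∧ N ≤ 8 * ((Finset.Icc 1 N).filter
      (fun n => ∃ s ∈ S, z.1 = s.1 + n ∧ z.2 = s.2 + a n)).card) :
    ∃ E G : Set UnitAddCircle, MeasurableSet E ∧ MeasurableSet G ∧ 0 < volume.real G ∧
      (Z.card : ℝ) * volume.real E ≤ (S.card : ℝ) * volume.real G ∧
      ∀ x ∈ G, ∃ N, N0 ≤ N ∧ 1 / 8 ≤ avg lam (E.indicator 1) N x := by
  classical
  obtain ⟨B, hB, hBpos, hdisj⟩ := exists_base ((S ∪ Z).image lab)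
  have hB0 : 0 < volume.real B := by
    rw [Measure.real, ENNReal.toReal_pos_iff]
    exact ⟨hBpos, by finiteness⟩
  have hlab0 : ∀ z, 0 < lab z := fun z => by unfold lab; positivity
  have hvol : ∀ z, volume.real {x : UnitAddCircle | lab z • x ∈ B} = volume.real B := by
    intro z
    rw [Measure.real, vol_preimage (hlab0 z) hB, Measure.real]
  have hG : volume.real (⋃ z ∈ Z, {x : UnitAddCircle | lab z • x ∈ B}) =
      Z.card * volume.real B := by
    rw [measureReal_biUnion_finset]
    · rw [Finset.sum_congr rfl (fun z _ => hvol z), Finset.sum_const, nsmul_eq_mul]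
    · intro z hz z' hz' hne
      have hne' : lab z ≠ lab z' := fun h => hne (lab_inj (hZ z hz) (hZ z' hz') h)
      rcases lt_or_gt_of_ne hne' with h | h
      · exact hdisj _ (Finset.mem_image_of_mem _ (Finset.mem_union_right _ hz)) _
          (Finset.mem_image_of_mem _ (Finset.mem_union_right _ hz')) h
      · exact (hdisj _ (Finset.mem_image_of_mem _ (Finset.mem_union_right _ hz')) _
          (Finset.mem_image_of_mem _ (Finset.mem_union_right _ hz)) h).symm
    · intro z _
      exact meas_preimage _ hB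
  have hEle : volume.real (⋃ s ∈ S, {x : UnitAddCircle | lab s • x ∈ B}) ≤
      S.card * volume.real B := by
    calc _ ≤ ∑ s ∈ S, volume.real {x : UnitAddCircle | lab s • x ∈ B} :=
          measureReal_biUnion_finset_le _ _
      _ = _ := by
          rw [Finset.sum_congr rfl (fun z _ => hvol z), Finset.sum_const, nsmul_eq_mul]
  refine ⟨⋃ s ∈ S, {x : UnitAddCircle | lab s • x ∈ B},
    ⋃ z ∈ Z, {x : UnitAddCircle | lab z • x ∈ B}, ?_, ?_, ?_, ?_, ?_⟩
  · exact Finset.measurableSet_biUnion _ (fun s _ => meas_preimage _ hB)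
  · exact Finset.measurableSet_biUnion _ (fun s _ => meas_preimage _ hB)
  · rw [hG]
    have : 0 < Z.card := Finset.card_pos.2 hZne
    positivity
  · rw [hG]
    calc (Z.card : ℝ) * volume.real (⋃ s ∈ S, {x : UnitAddCircle | lab s • x ∈ B})
        ≤ (Z.card : ℝ) * (S.card * volume.real B) := by gcongr
      _ = _ := by ring
  · intro x hx
    simp only [Set.mem_iUnion, Set.mem_ofPred_eq] at hx
    obtain ⟨z, hz, hxz⟩ := hx
    obtain ⟨N, hN0, hNpos, hcount⟩ := hpat z hz
    refine ⟨N, hN0, ?_⟩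
    unfold avg
    have hNpos' : (0 : ℝ) < N := by exact_mod_cast hNpos
    rw [le_div_iff₀ hNpos']
    have h1 : ((((Finset.Icc 1 N).filter
      (fun n => ∃ s ∈ S, z.1 = s.1 + n ∧ z.2 = s.2 + a n)).card : ℕ) : ℝ) ≤
        ∑ n ∈ Finset.Icc 1 N, (⋃ s ∈ S, {x : UnitAddCircle | lab s • x ∈ B}).indicator
          (1 : UnitAddCircle → ℝ) (lam n • x) := by
      rw [Finset.card_filter]
      push_cast
      apply Finset.sum_le_sum
      intro n _
      split_ifs with h
      · obtain ⟨s, hs, hs1, hs2⟩ := h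
        rw [Set.indicator_of_mem]
        · simp
        · simp only [Set.mem_iUnion, Set.mem_ofPred_eq]
          refine ⟨s, hs, ?_⟩
          rw [smul_smul]
          have : lab s * lam n = lab z := by
            unfold lab
            rw [hlam, hs1, hs2]
            have hsle := hS s hs
            have han := ha n
            have e : s.1 + n - (s.2 + a n) = (s.1 - s.2) + (n - a n) := by omega
            rw [e, pow_add, pow_add]
            ring
          rw [this]
          exact hxz
      · exact Set.indicator_nonneg (fun _ _ => zero_le_one) _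
    have h2 : (N : ℝ) ≤ 8 * ((((Finset.Icc 1 N).filter
      (fun n => ∃ s ∈ S, z.1 = s.1 + n ∧ z.2 = s.2 + a n)).card : ℕ) : ℝ) := by
      exact_mod_cast hcount
    linarith

end Pool.Agent.X143.KH
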