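import Pool.Agent.X143.KH.Boost

/-!
# From separated plateaux of the path to failure of the Khintchin property
-/

namespace Pool.Agent.X143.KH

open MeasureTheory Filter Topology

theorem card_Icc_le {x y : ℝ} (hxy : x ≤ y) (hy : 0 ≤ y) :
    ((Finset.Icc ⌈x⌉₊ ⌊y⌋₊).card : ℝ) ≤ y - x + 1 := by
  rw [Nat.card_Icc]
  rcases le_total ⌈x⌉₊ (⌊y⌋₊ + 1) with h | h
  · rw [Nat.cast_sub h]
    push_cast
    have h1 := Nat.floor_le hy
    have h2 := Nat.le_ceil x
    linarith
  · rw [Nat.sub_eq_zero_of_le h]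
    push_cast
    linarith

theorem le_card_Icc {x y : ℝ} (hx : 0 ≤ x) :
    y - x - 1 ≤ ((Finset.Icc ⌈x⌉₊ ⌊y⌋₊).card : ℝ) := by
  rw [Nat.card_Icc]
  have h1 := Nat.lt_floor_add_one y
  have h2 := Nat.ceil_lt_add_one hx
  have h3 : ((⌊y⌋₊ + 1 : ℕ) : ℝ) - (⌈x⌉₊ : ℝ) ≤ ((⌊y⌋₊ + 1 - ⌈x⌉₊ : ℕ) : ℝ) := by
    rcases le_total ⌈x⌉₊ (⌊y⌋₊ + 1) with h | h
    · rw [Nat.cast_sub h]
    · rw [Nat.sub_eq_zero_of_le h]
      have : ((⌊y⌋₊ + 1 : ℕ) : ℝ) ≤ (⌈x⌉₊ : ℝ) := by exact_mod_cast h
      push_cast at this ⊢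
      linarith
  push_cast at h3
  linarith

/-- The path `a` has `J` separated plateaux of width `w` after time `N0`. -/
def Plateaux (p : ℝ) (a : ℕ → ℕ) (J N0 : ℕ) : Prop :=
  ∃ w : ℝ, 5 / 2 ≤ w ∧ ∃ (T : Fin J → ℕ) (h : Fin J → ℝ), (∀ j, N0 ≤ T j ∧ 0 < T j) ∧
    (∀ i j, i ≠ j → w < |h i - h j|) ∧
    ∀ j, T j ≤ 8 * ((Finset.Icc 1 (T j)).filter
      (fun n => |(a n : ℝ) - p * n - h j| ≤ w / 2)).card

theorem pattern_sets {p : ℝ} (hp0 : 0 < p) (hp1 : p < 1) {a : ℕ → ℕ} (ha : ∀ n, a n ≤ n)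
    {J N0 : ℕ} (hJ : 0 < J) (hpl : Plateaux p a J N0) :
    ∃ S Z : Finset (ℕ × ℕ), (∀ s ∈ S, s.2 ≤ s.1) ∧ (∀ z ∈ Z, z.2 ≤ z.1) ∧ Z.Nonempty ∧
      (∀ z ∈ Z, ∃ N, N0 ≤ N ∧ 0 < N ∧ N ≤ 8 * ((Finset.Icc 1 N).filter
      (fun n => ∃ s ∈ S, z.1 = s.1 + n ∧ z.2 = s.2 + a n)).card) ∧
      (J : ℝ) * S.card ≤ 8 * Z.card := by
  classical
  obtain ⟨w, hw, T, h, hT, hsep, hcount⟩ := hpl
  obtain ⟨N, hN⟩ : ∃ N : ℕ, ∀ j, T j ≤ N := ⟨Finset.univ.sup T, fun j =>
    Finset.le_sup (f := T) (Finset.mem_univ j)⟩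
  obtain ⟨H, hH⟩ : ∃ H : ℝ, ∀ j, |h j| ≤ H := ⟨∑ j, |h j|, fun j =>
    Finset.single_le_sum (f := fun j => |h j|) (fun _ _ => abs_nonneg _) (Finset.mem_univ j)⟩
  obtain ⟨U0, hU0pos, hU01, hU02⟩ : ∃ U0 : ℕ, 0 < U0 ∧ (∀ u : ℕ, U0 ≤ u → (N : ℝ) + H + w ≤ p * u) ∧
      (∀ u : ℕ, U0 ≤ u → (N : ℝ) + H + w ≤ (1 - p) * u) := by
    obtain ⟨n1, hn1⟩ := exists_nat_ge (((N : ℝ) + H + w) / p)
    obtain ⟨n2, hn2⟩ := exists_nat_ge (((N : ℝ) + H + w) / (1 - p))
    refine ⟨n1 + n2 + 1, by omega, ?_, ?_⟩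
    · intro u hu
      rw [div_le_iff₀ hp0] at hn1
      have : (n1 : ℝ) ≤ u := by exact_mod_cast (by omega : n1 ≤ u)
      nlinarith
    · intro u hu
      have h1p : 0 < 1 - p := by linarith
      rw [div_le_iff₀ h1p] at hn2
      have : (n2 : ℝ) ≤ u := by exact_mod_cast (by omega : n2 ≤ u)
      nlinarith
  set U := 2 * U0 with hU
  set S := ((Finset.range U) ×ˢ (Finset.range U)).filter
    (fun z : ℕ × ℕ => z.2 ≤ z.1 ∧ |(z.2 : ℝ) - p * z.1| ≤ w) with hS
  set Zj : Fin J → Finset (ℕ × ℕ) := fun j => ((Finset.Ico U0 U) ×ˢ (Finset.range U)).filter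
    (fun z : ℕ × ℕ => N ≤ z.2 ∧ z.2 + N ≤ z.1 ∧ |(z.2 : ℝ) - p * z.1 - h j| ≤ w / 2) with hZj
  set Z := Finset.univ.biUnion Zj with hZ
  have hScard : (S.card : ℝ) ≤ U * (2 * w + 1) := by
    have h1 : S.card = ∑ u ∈ Finset.range U, (S.filter (fun z => z.1 = u)).card := by
      apply Finset.card_eq_sum_card_fiberwise
      intro z hz
      have hz' := Finset.mem_coe.1 hz
      rw [hS, Finset.mem_filter, Finset.mem_product] at hz'
      exact Finset.mem_coe.2 hz'.1.1
    rw [h1]
    push_cast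
    calc ∑ u ∈ Finset.range U, ((S.filter (fun z => z.1 = u)).card : ℝ)
        ≤ ∑ u ∈ Finset.range U, (2 * w + 1) := by
          apply Finset.sum_le_sum
          intro u _
          have h2 : (S.filter (fun z => z.1 = u)).card ≤
              (Finset.Icc ⌈p * u - w⌉₊ ⌊p * u + w⌋₊).card := by
            apply Finset.card_le_card_of_injOn (fun z => z.2)
            · intro z hz
              have hz' := Finset.mem_coe.1 hz
              rw [Finset.mem_filter, hS, Finset.mem_filter] at hz'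
              obtain ⟨⟨_, _, hz1⟩, hz2⟩ := hz'
              rw [hz2, abs_le] at hz1
              apply Finset.mem_coe.2
              rw [Finset.mem_Icc]
              constructor
              · rw [Nat.ceil_le]; linarith
              · apply Nat.le_floor; linarith
            · intro z hz z' hz' hzz
              have hz1 := (Finset.mem_filter.1 (Finset.mem_coe.1 hz)).2
              have hz2 := (Finset.mem_filter.1 (Finset.mem_coe.1 hz')).2
              exact Prod.ext (hz1.trans hz2.symm) hzz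
          have h3 := card_Icc_le (x := p * u - w) (y := p * u + w) (by linarith) (by positivity)
          have h4 : ((S.filter (fun z => z.1 = u)).card : ℝ) ≤
              ((Finset.Icc ⌈p * u - w⌉₊ ⌊p * u + w⌋₊).card : ℝ) := by exact_mod_cast h2
          linarith
      _ = _ := by rw [Finset.sum_const, Finset.card_range, nsmul_eq_mul]
  have hZjcard : ∀ j, (U0 : ℝ) * (w - 1) ≤ ((Zj j).card : ℝ) := by
    intro j
    have h1 : (Zj j).card = ∑ u ∈ Finset.Ico U0 U, ((Zj j).filter (fun z => z.1 = u)).card := by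
      apply Finset.card_eq_sum_card_fiberwise
      intro z hz
      have hz' := Finset.mem_coe.1 hz
      rw [hZj, Finset.mem_filter, Finset.mem_product] at hz'
      exact Finset.mem_coe.2 hz'.1.1
    rw [h1]
    push_cast
    calc (U0 : ℝ) * (w - 1) = ∑ u ∈ Finset.Ico U0 U, (w - 1) := by
          rw [Finset.sum_const, Nat.card_Ico, nsmul_eq_mul, show U - U0 = U0 by omega]
      _ ≤ ∑ u ∈ Finset.Ico U0 U, (((Zj j).filter (fun z => z.1 = u)).card : ℝ) := by
          apply Finset.sum_le_sum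
          intro u hu
          rw [Finset.mem_Ico] at hu
          have e1 := hU01 u hu.1
          have e2 := hU02 u hu.1
          have e3 := abs_le.1 (hH j)
          have hNr : (0 : ℝ) ≤ N := by positivity
          have h2 : (Finset.Icc ⌈p * u + h j - w / 2⌉₊ ⌊p * u + h j + w / 2⌋₊).card ≤
              ((Zj j).filter (fun z => z.1 = u)).card := by
            apply Finset.card_le_card_of_injOn (fun i => (u, i))
            · intro i hi
              have hi' := Finset.mem_coe.1 hi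
              rw [Finset.mem_Icc, Nat.ceil_le] at hi'
              obtain ⟨h5, h6⟩ := hi'
              have h7 : (i : ℝ) ≤ p * u + h j + w / 2 := by
                refine le_trans (by exact_mod_cast h6) (Nat.floor_le ?_)
                linarith
              have h8 : (N : ℝ) ≤ i := by linarith
              have h9 : (i : ℝ) + N ≤ u := by linarith
              have h8' : N ≤ i := by exact_mod_cast h8
              have h9' : i + N ≤ u := by exact_mod_cast h9
              apply Finset.mem_coe.2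
              rw [Finset.mem_filter, hZj, Finset.mem_filter, Finset.mem_product, Finset.mem_Ico,
                Finset.mem_range]
              refine ⟨⟨⟨hu, by show i < U; omega⟩, h8', h9', ?_⟩, rfl⟩
              show |(i : ℝ) - p * u - h j| ≤ w / 2
              rw [abs_le]
              constructor <;> linarith
            · intro i _ i' _ hii
              exact (Prod.ext_iff.1 hii).2
          have h3 := le_card_Icc (x := p * u + h j - w / 2) (y := p * u + h j + w / 2)
            (by linarith)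
          have h4 : ((Finset.Icc ⌈p * u + h j - w / 2⌉₊ ⌊p * u + h j + w / 2⌋₊).card : ℝ) ≤
            (((Zj j).filter (fun z => z.1 = u)).card : ℝ) := by exact_mod_cast h2
          linarith
  have hdisj : ∀ i j, i ≠ j → Disjoint (Zj i) (Zj j) := by
    intro i j hij
    rw [Finset.disjoint_left]
    intro z hz hz'
    rw [hZj, Finset.mem_filter] at hz hz'
    have h1 := abs_le.1 hz.2.2.2
    have h2 := abs_le.1 hz'.2.2.2
    have h3 := hsep i j hij
    have h4 : |h i - h j| ≤ w := by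
      rw [abs_le]
      constructor <;> linarith
    linarith
  have hZcard : (J : ℝ) * (U0 * (w - 1)) ≤ (Z.card : ℝ) := by
    rw [hZ, Finset.card_biUnion (fun i _ j _ hij => hdisj i j hij)]
    push_cast
    calc (J : ℝ) * (U0 * (w - 1)) = ∑ _j : Fin J, (U0 : ℝ) * (w - 1) := by
          rw [Finset.sum_const, Finset.card_univ, Fintype.card_fin, nsmul_eq_mul]
      _ ≤ _ := Finset.sum_le_sum (fun j _ => hZjcard j)
  have hJ' : (0 : ℝ) < J := by exact_mod_cast hJ
  have hU0' : (0 : ℝ) < U0 := by exact_mod_cast hU0pos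
  refine ⟨S, Z, ?_, ?_, ?_, ?_, ?_⟩
  · intro s hs
    rw [hS, Finset.mem_filter] at hs
    exact hs.2.1
  · intro z hz
    rw [hZ, Finset.mem_biUnion] at hz
    obtain ⟨j, _, hz⟩ := hz
    rw [hZj, Finset.mem_filter] at hz
    omega
  · rw [← Finset.card_pos]
    have : (0 : ℝ) < (Z.card : ℝ) := by
      refine lt_of_lt_of_le ?_ hZcard
      have : 0 < w - 1 := by linarith
      positivity
    exact_mod_cast this
  · intro z hz
    rw [hZ, Finset.mem_biUnion] at hz
    obtain ⟨j, _, hz⟩ := hz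
    rw [hZj, Finset.mem_filter, Finset.mem_product, Finset.mem_Ico, Finset.mem_range] at hz
    obtain ⟨⟨hz1, hz2⟩, hz3, hz4, hz5⟩ := hz
    refine ⟨T j, (hT j).1, (hT j).2, (hcount j).trans (Nat.mul_le_mul_left 8
      (Finset.card_le_card ?_))⟩
    intro n hn
    rw [Finset.mem_filter, Finset.mem_Icc] at hn ⊢
    obtain ⟨⟨hn1, hn2⟩, hn3⟩ := hn
    refine ⟨⟨hn1, hn2⟩, (z.1 - n, z.2 - a n), ?_, ?_, ?_⟩
    · have hTN := hN j
      have han := ha n
      have e1 : ((z.1 - n : ℕ) : ℝ) = (z.1 : ℝ) - n := by rw [Nat.cast_sub (by omega)]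
      have e2 : ((z.2 - a n : ℕ) : ℝ) = (z.2 : ℝ) - a n := by rw [Nat.cast_sub (by omega)]
      rw [hS, Finset.mem_filter, Finset.mem_product, Finset.mem_range, Finset.mem_range]
      refine ⟨⟨by show z.1 - n < U; omega, by show z.2 - a n < U; omega⟩,
        by show z.2 - a n ≤ z.1 - n; omega, ?_⟩
      show |((z.2 - a n : ℕ) : ℝ) - p * ((z.1 - n : ℕ) : ℝ)| ≤ w
      rw [e1, e2]
      have h1 := abs_le.1 hz5
      have h2 := abs_le.1 hn3
      rw [abs_le]
      constructor <;> nlinarith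
    · have hTN := hN j
      show z.1 = z.1 - n + n
      omega
    · have hTN := hN j
      have han := ha n
      show z.2 = z.2 - a n + a n
      omega
  · calc (J : ℝ) * S.card ≤ J * (U * (2 * w + 1)) := by gcongr
      _ = J * (U0 * (2 * (2 * w + 1))) := by rw [hU]; push_cast; ring
      _ ≤ J * (U0 * (8 * (w - 1))) := by
          apply mul_le_mul_of_nonneg_left _ hJ'.le
          apply mul_le_mul_of_nonneg_left _ hU0'.le
          linarith
      _ = 8 * (J * (U0 * (w - 1))) := by ring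
      _ ≤ 8 * Z.card := by linarith

theorem exists_set {p : ℝ} (hp0 : 0 < p) (hp1 : p < 1) {a lam : ℕ → ℕ} (ha : ∀ n, a n ≤ n)
    (hlam : ∀ n, lam n = 2 ^ (a n) * 3 ^ (n - a n))
    (hpl : ∀ J N0 : ℕ, 0 < J → Plateaux p a J N0) :
    ∃ E : Set UnitAddCircle, MeasurableSet E ∧
      ¬ ∀ᵐ x : UnitAddCircle, Tendsto (fun N => avg lam (E.indicator 1) N x) atTop
        (𝓝 (volume.real E)) := by
  classical
  have hstep : ∀ i : ℕ, ∃ E G : Set UnitAddCircle, MeasurableSet E ∧ MeasurableSet G ∧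
      volume.real E ≤ (1 / 32) * (1 / 2) ^ i ∧ 1 / 2 ≤ volume.real G ∧
      ∀ x ∈ G, ∃ N, i ≤ N ∧ 1 / 8 ≤ avg lam (E.indicator 1) N x := by
    intro i
    set J := 24 * 32 * 2 ^ i with hJ
    have hJ0 : 0 < J := by positivity
    obtain ⟨S, Z, hS, hZ, hZne, hpat, hcard⟩ := pattern_sets hp0 hp1 ha hJ0 (hpl J i hJ0)
    obtain ⟨E, G, hE, hG, hGpos, hEG, hav⟩ := transfer ha hlam hS hZ hZne hpat
    have hJR : (0 : ℝ) < J := by exact_mod_cast hJ0
    have hZ0 : (0 : ℝ) < Z.card := by exact_mod_cast Finset.card_pos.2 hZne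
    have hc : (J : ℝ) / 8 * volume.real E ≤ volume.real G := by
      have h1 : (J : ℝ) * (Z.card * volume.real E) ≤ 8 * Z.card * volume.real G := by
        calc (J : ℝ) * (Z.card * volume.real E) ≤ J * (S.card * volume.real G) := by gcongr
          _ = (J * S.card) * volume.real G := by ring
          _ ≤ 8 * Z.card * volume.real G := by gcongr
      have h2 : (Z.card : ℝ) * ((J : ℝ) / 8 * volume.real E) ≤ Z.card * volume.real G := by
        linarith
      exact le_of_mul_le_mul_left h2 hZ0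
    obtain ⟨E', G', hE', hG', h1, h2, h3⟩ := boost (by positivity : (0 : ℝ) < (J : ℝ) / 8)
      hE hG hGpos hc hav
    refine ⟨E', G', hE', hG', h1.trans ?_, h2, h3⟩
    rw [hJ]
    push_cast
    apply le_of_eq
    rw [div_pow, one_pow]
    field_simp
    norm_num
  choose Es Gs hEs hGs hEle hGge hav using hstep
  refine ⟨⋃ i, Es i, MeasurableSet.iUnion hEs, ?_⟩
  intro hae
  have hEsmall : volume.real (⋃ i, Es i) ≤ 1 / 16 := by
    have h1 : volume (⋃ i, Es i) ≤ ENNReal.ofReal (1 / 16) := by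
      calc volume (⋃ i, Es i) ≤ ∑' i, volume (Es i) := measure_iUnion_le _
        _ ≤ ∑' i, ENNReal.ofReal ((1 / 32) * (1 / 2) ^ i) := by
            apply ENNReal.tsum_le_tsum
            intro i
            rw [← ENNReal.ofReal_toReal (measure_ne_top volume (Es i))]
            exact ENNReal.ofReal_le_ofReal (hEle i)
        _ = ENNReal.ofReal (∑' i, ((1 / 32) * (1 / 2 : ℝ) ^ i)) := by
            rw [ENNReal.ofReal_tsum_of_nonneg (fun i => by positivity)]
            exact (summable_geometric_two).mul_left _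
        _ = ENNReal.ofReal (1 / 16) := by
            rw [tsum_mul_left, tsum_geometric_two]
            norm_num
    have h2 := ENNReal.toReal_mono ENNReal.ofReal_ne_top h1
    rwa [ENNReal.toReal_ofReal (by norm_num)] at h2
  set H : ℕ → Set UnitAddCircle := fun n => ⋃ i ≥ n, Gs i with hH
  have hHm : ∀ n, MeasurableSet (H n) := fun n =>
    MeasurableSet.iUnion (fun i => MeasurableSet.iUnion (fun _ => hGs i))
  have hHanti : Antitone H := by
    intro n m hnm x hx
    simp only [hH, Set.mem_iUnion] at hx ⊢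
    obtain ⟨i, hi, hx⟩ := hx
    exact ⟨i, le_trans hnm hi, hx⟩
  have hlim := tendsto_measure_iInter_atTop (μ := (volume : Measure UnitAddCircle))
    (fun n => (hHm n).nullMeasurableSet) hHanti ⟨0, measure_ne_top _ _⟩
  have hge : ENNReal.ofReal (1 / 2) ≤ volume (⋂ n, H n) := by
    apply ge_of_tendsto' hlim
    intro n
    have h1 : volume (Gs n) ≤ volume (H n) := by
      apply measure_mono
      intro x hx
      simp only [hH, Set.mem_iUnion]
      exact ⟨n, le_rfl, hx⟩
    refine le_trans ?_ h1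
    rw [← ENNReal.ofReal_toReal (measure_ne_top volume (Gs n))]
    exact ENNReal.ofReal_le_ofReal (hGge n)
  have hex : ∃ x ∈ ⋂ n, H n, Tendsto (fun N => avg lam ((⋃ i, Es i).indicator 1) N x) atTop
        (𝓝 (volume.real (⋃ i, Es i))) := by
    by_contra hne
    push Not at hne
    have h0 : volume (⋂ n, H n) = 0 := by
      apply measure_mono_null _ hae
      intro x hx
      exact hne x hx
    rw [h0] at hge
    simp at hge
  obtain ⟨x, hx, hT⟩ := hex
  have hev : ∀ᶠ N in atTop, avg lam ((⋃ i, Es i).indicator 1) N x < 1 / 8 := by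
    apply hT.eventually_lt_const
    linarith
  rw [eventually_atTop] at hev
  obtain ⟨n0, hn0⟩ := hev
  have hx0 := Set.mem_iInter.1 hx n0
  simp only [hH, Set.mem_iUnion] at hx0
  obtain ⟨i, hi, hxi⟩ := hx0
  obtain ⟨N, hN, hNav⟩ := hav i x hxi
  have h1 := hn0 N (le_trans hi hN)
  have h2 := avg_mono (lam := lam) (Set.subset_iUnion Es i) N x
  linarith

end Pool.Agent.X143.KH
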