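import Pool.Agent.X143.KH.Win

/-!
# Random products of 2 and 3 are almost surely not Khintchin sequences
-/

namespace Pool.Agent.X143.KH

open MeasureTheory ProbabilityTheory Filter Topology

/-- Number of letters `2` among the first `n`. -/
def aa (x : ℕ → ℕ) (n : ℕ) : ℕ := ((Finset.range n).filter (fun i => x i = 2)).card

/-- Centred letter. -/
noncomputable def phi (p : ℝ) (k : ℕ) : ℝ := if k = 2 then 1 - p else -p

theorem aa_le (x : ℕ → ℕ) (n : ℕ) : aa x n ≤ n := by
  unfold aa
  exact (Finset.card_filter_le _ _).trans (by simp)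

theorem sum_phi (p : ℝ) (x : ℕ → ℕ) (n : ℕ) :
    ∑ i ∈ Finset.Ico 0 n, phi p (x i) = (aa x n : ℝ) - p * n := by
  induction n with
  | zero => simp [aa]
  | succ n ih =>
    rw [Finset.sum_Ico_succ_top (Nat.zero_le n), ih]
    unfold aa phi
    rw [Finset.range_add_one, Finset.filter_insert]
    split_ifs with h
    · rw [Finset.card_insert_of_notMem (by simp)]
      push_cast
      ring
    · push_cast
      ring

theorem prod_eq {x : ℕ → ℕ} (hx : ∀ i, x i = 2 ∨ x i = 3) (n : ℕ) :
    ∏ i ∈ Finset.range n, x i = 2 ^ (aa x n) * 3 ^ (n - aa x n) := by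
  induction n with
  | zero => simp [aa]
  | succ n ih =>
    rw [Finset.prod_range_succ, ih]
    have hle := aa_le x n
    have hs : aa x (n + 1) = if x n = 2 then aa x n + 1 else aa x n := by
      unfold aa
      rw [Finset.range_add_one, Finset.filter_insert]
      split_ifs with h
      · rw [Finset.card_insert_of_notMem (by simp)]
      · rfl
    rw [hs]
    rcases hx n with h | h
    · rw [if_pos h, h, Nat.add_sub_add_right, pow_succ]
      ring
    · rw [if_neg (by omega), h, show n + 1 - aa x n = (n - aa x n) + 1 by omega, pow_succ]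
      ring

theorem plateaux_of_window {Ω : Type*} {X : ℕ → Ω → ℕ} {p : ℝ} {J R : ℕ} (hR : 0 < R) {ω : Ω}
    (h : ω ∈ WW (fun i ω => phi p (X i ω)) J R) :
    Plateaux p (aa (fun i => X i ω)) J R := by
  set Y : ℕ → Ω → ℝ := fun i ω => phi p (X i ω) with hY
  have hw := ww_pos (J := J) hR
  set w := ww J R with hwdef
  set M : ℕ → ℕ := fun j => R * tt (2 * j + 1) with hM
  have hMpos : ∀ j, 0 < M j := fun j => Nat.mul_pos hR (tt_pos _)
  have hMR : ∀ j, R ≤ M j := by
    intro j
    calc R = R * 1 := (Nat.mul_one R).symm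
      _ ≤ R * tt (2 * j + 1) := Nat.mul_le_mul_left R (tt_pos _)
  have hstay : ∀ j, j < J → ω ∈ Stay Y w (M j) := by
    intro j hj
    have h1 := h (2 * j + 1) (by omega)
    unfold AA at h1
    rw [if_neg (by omega)] at h1
    exact h1
  have htr : ∀ j, j < J → 2 * w ≤ D Y (R * tt (2 * j)) (M j) ω := by
    intro j hj
    have h1 := h (2 * j) (by omega)
    unfold AA at h1
    rw [if_pos (by omega)] at h1
    have h2 : R * tt (2 * j) + R = M j := by
      simp only [hM]
      rw [tt_even (by omega : 2 * j % 2 = 0), Nat.mul_add, Nat.mul_one]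
    rw [h2] at h1
    exact h1
  have hdbl : ∀ j, R * tt (2 * (j + 1)) = 2 * M j := by
    intro j
    simp only [hM]
    rw [show 2 * (j + 1) = 2 * j + 1 + 1 by ring, tt_odd (by omega)]
    ring
  have hnext : ∀ j, 2 * M j ≤ M (j + 1) := by
    intro j
    rw [← hdbl]
    simp only [hM]
    exact Nat.mul_le_mul_left R (tt_mono (by omega))
  have hstep : ∀ j, j + 1 < J → D Y 0 (M j) ω + 3 / 2 * w ≤ D Y 0 (M (j + 1)) ω := by
    intro j hj
    have h1 := (hstay j (by omega)).1
    have h2 := htr (j + 1) hj
    rw [hdbl] at h2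
    have h3 := D_add (Y := Y) (Nat.zero_le (M j)) (show M j ≤ 2 * M j by omega) ω
    have h4 := D_add (Y := Y) (Nat.zero_le (2 * M j)) (hnext j) ω
    have h5 := (abs_le.1 h1).1
    linarith
  have hsepl : ∀ i j, i < j → j < J → D Y 0 (M i) ω + 3 / 2 * w ≤ D Y 0 (M j) ω := by
    intro i j hij
    induction j with
    | zero => omega
    | succ j ih =>
      intro hj
      rcases Nat.lt_succ_iff_lt_or_eq.1 hij with h1 | h1
      · have h2 := ih h1 (by omega)
        have h3 := hstep j hj
        linarith
      · rw [h1]; exact hstep j hj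
  have hD0 : ∀ n, D Y 0 n ω = (aa (fun i => X i ω) n : ℝ) - p * n := by
    intro n
    exact sum_phi p (fun i => X i ω) n
  refine ⟨w, ?_, fun j => 2 * M j, fun j => D Y 0 (M j) ω, ?_, ?_, ?_⟩
  · have h1 : (5 / 2 : ℝ) ^ 2 ≤ w ^ 2 := by
      rw [hwdef, ww_sq]
      have h2 : (1 : ℝ) ≤ tt (2 * J) := by exact_mod_cast tt_pos _
      have h3 : (1 : ℝ) ≤ R := by exact_mod_cast hR
      nlinarith
    exact le_of_sq_le_sq_of_nonneg_aux h1 hw
  · intro j
    have := hMR j
    have := hMpos j
    show R ≤ 2 * M j ∧ 0 < 2 * M j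
    omega
  · intro i j hij
    have hij' : (i : ℕ) ≠ (j : ℕ) := fun h => hij (Fin.ext h)
    rcases lt_or_gt_of_ne hij' with h1 | h1
    · have h2 := hsepl i j h1 j.2
      rw [abs_sub_comm, lt_abs]
      left
      linarith
    · have h2 := hsepl j i h1 i.2
      rw [lt_abs]
      left
      linarith
  · intro j
    have h1 := (hstay j j.2).2
    have h2 : ((Finset.Ioc (M j) (2 * M j)).filter (fun n => |D Y (M j) n ω| ≤ w / 2)).card ≤
        ((Finset.Icc 1 (2 * M j)).filter
        (fun n => |(aa (fun i => X i ω) n : ℝ) - p * n - D Y 0 (M j) ω| ≤ w / 2)).card := by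
      apply Finset.card_le_card
      intro n hn
      rw [Finset.mem_filter, Finset.mem_Ioc] at hn
      rw [Finset.mem_filter, Finset.mem_Icc]
      have := hMpos j
      refine ⟨⟨by omega, hn.1.2⟩, ?_⟩
      rw [← hD0 n]
      have h3 := D_add (Y := Y) (Nat.zero_le (M j)) hn.1.1.le ω
      have h4 : D Y 0 n ω - D Y 0 (M j) ω = D Y (M j) n ω := by linarith
      rw [h4]
      exact hn.2
    show 2 * M j ≤ 8 * ((Finset.Icc 1 (2 * M j)).filter
        (fun n => |(aa (fun i => X i ω) n : ℝ) - p * n - D Y 0 (M j) ω| ≤ w / 2)).card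
    omega
where
  le_of_sq_le_sq_of_nonneg_aux {x y : ℝ} (h : x ^ 2 ≤ y ^ 2) (hy : 0 < y) : x ≤ y :=
    le_of_abs_le (by
      have := sq_le_sq.1 h
      rwa [abs_of_pos hy] at this)

theorem main {Ω : Type*} [MeasurableSpace Ω] {P : Measure Ω} [IsProbabilityMeasure P]
    {X : ℕ → Ω → ℕ} (hX : ∀ i, Measurable (X i)) (hXi : iIndepFun X P) {p : ℝ} (hp0 : 0 < p)
    (hp1 : p < 1) (h2 : ∀ i, P.real {ω | X i ω = 2} = p)
    (h3 : ∀ i, P.real {ω | X i ω = 3} = 1 - p) :
    ∀ᵐ ω ∂P, ∃ E : Set UnitAddCircle, MeasurableSet E ∧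
      ¬ ∀ᵐ x : UnitAddCircle, Tendsto
        (fun N => avg (fun n => ∏ i ∈ Finset.range n, X i ω) (E.indicator 1) N x) atTop
        (𝓝 (volume.real E)) := by
  classical
  have hms2 : ∀ i, MeasurableSet {ω | X i ω = 2} := fun i => hX i (measurableSet_singleton 2)
  have hms3 : ∀ i, MeasurableSet {ω | X i ω = 3} := fun i => hX i (measurableSet_singleton 3)
  have h23 : ∀ᵐ ω ∂P, ∀ i, X i ω = 2 ∨ X i ω = 3 := by
    rw [ae_all_iff]
    intro i
    have hdisj : Disjoint {ω | X i ω = 2} {ω | X i ω = 3} := by
      rw [Set.disjoint_left]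
      intro ω h h'
      simp only [Set.mem_ofPred_eq] at h h'
      omega
    have h1 := measureReal_union (μ := P) hdisj (hms3 i)
    rw [h2, h3] at h1
    have h4 : P.real ({ω | X i ω = 2} ∪ {ω | X i ω = 3}) = 1 := by linarith
    have h5 : P ({ω | X i ω = 2} ∪ {ω | X i ω = 3}) = 1 := by
      rw [← ENNReal.toReal_eq_one_iff]
      exact h4
    rw [← mem_ae_iff_prob_eq_one₀ ((hms2 i).union (hms3 i)).nullMeasurableSet] at h5
    exact h5
  have hYm : ∀ i, Measurable (fun ω => phi p (X i ω)) := fun i =>
    (measurable_of_countable (phi p)).comp (hX i)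
  have hYb : ∀ i ω, |phi p (X i ω)| ≤ 1 := by
    intro i ω
    unfold phi
    split_ifs
    · rw [abs_le]; constructor <;> linarith
    · rw [abs_le]; constructor <;> linarith
  have hY0 : ∀ i, ∫ ω, phi p (X i ω) ∂P = 0 := by
    intro i
    have h1 : (fun ω => phi p (X i ω)) =
        fun ω => ({ω | X i ω = 2}).indicator (fun _ => (1 : ℝ)) ω - p := by
      funext ω
      unfold phi
      simp only [Set.indicator, Set.mem_ofPred_eq]
      split_ifs <;> ring
    rw [h1, integral_sub ((integrable_const (1 : ℝ)).indicator (hms2 i)) (integrable_const _),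
      integral_indicator_const _ (hms2 i), h2]
    simp
  have hYid : ∀ i, IdentDistrib (fun ω => phi p (X i ω)) (fun ω => phi p (X 0 ω)) P P := by
    intro i
    refine ⟨(hYm i).aemeasurable, (hYm 0).aemeasurable, ?_⟩
    ext s hs
    rw [Measure.map_apply (hYm i) hs, Measure.map_apply (hYm 0) hs]
    have key : ∀ j, (fun ω => phi p (X j ω)) ⁻¹' s =
        (if (1 - p) ∈ s then {ω | X j ω = 2} else ∅) ∪
        (if (-p) ∈ s then {ω | X j ω = 2}ᶜ else ∅) := by
      intro j
      ext ω
      simp only [Set.mem_preimage, Set.mem_union]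
      unfold phi
      by_cases hx : X j ω = 2
      · rw [if_pos hx]
        constructor
        · intro hm
          left
          rw [if_pos hm]
          exact hx
        · rintro (hm | hm)
          · split_ifs at hm with hq
            · exact hq
            · exact absurd hm (Set.notMem_empty _)
          · split_ifs at hm with hq
            · exact absurd hx hm
            · exact absurd hm (Set.notMem_empty _)
      · rw [if_neg hx]
        constructor
        · intro hm
          right
          rw [if_pos hm]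
          exact hx
        · rintro (hm | hm)
          · split_ifs at hm with hq
            · exact absurd hm hx
            · exact absurd hm (Set.notMem_empty _)
          · split_ifs at hm with hq
            · exact hq
            · exact absurd hm (Set.notMem_empty _)
    have hval : ∀ j, P ((fun ω => phi p (X j ω)) ⁻¹' s) =
        (if (1 - p) ∈ s then ENNReal.ofReal p else 0) +
        (if (-p) ∈ s then 1 - ENNReal.ofReal p else 0) := by
      intro j
      have hPj : P {ω | X j ω = 2} = ENNReal.ofReal p := by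
        rw [← h2 j, Measure.real, ENNReal.ofReal_toReal (measure_ne_top _ _)]
      rw [key j, measure_union]
      · congr 1
        · split_ifs
          · exact hPj
          · exact measure_empty
        · split_ifs
          · rw [prob_compl_eq_one_sub (hms2 j), hPj]
          · exact measure_empty
      · rw [Set.disjoint_left]
        intro ω h h'
        split_ifs at h with hq
        · split_ifs at h' with hq'
          · exact h' h
          · exact absurd h' (Set.notMem_empty _)
        · exact absurd h (Set.notMem_empty _)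
      · split_ifs
        · exact (hms2 j).compl
        · exact MeasurableSet.empty
    rw [hval i, hval 0]
  have hvar : 0 < variance (fun ω => phi p (X 0 ω)) P := by
    rcases (variance_nonneg (fun ω => phi p (X 0 ω)) P).lt_or_eq with h | h
    · exact h
    · exfalso
      have hL : MemLp (fun ω => phi p (X 0 ω)) 2 P :=
        memLp_Y (Y := fun i ω => phi p (X i ω)) hYm hYb 0
      have h1 := ae_eq_integral_of_variance_eq_zero hL h.symm
      have h4 : ∀ᵐ ω ∂P, False := by
        filter_upwards [h1] with ω hω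
        have h5 := hY0 0
        rw [h5] at hω
        unfold phi at hω
        split_ifs at hω <;> linarith
      rw [ae_iff] at h4
      simp at h4
  have hwin : ∀ᵐ ω ∂P, ∀ J : ℕ, ∀ n, ∃ R, n ≤ R ∧ 0 < R ∧
      ω ∈ WW (fun i ω => phi p (X i ω)) J R := by
    rw [ae_all_iff]
    intro J
    exact window_io hX hXi hYb hYid hY0 hvar J
  filter_upwards [h23, hwin] with ω hω23 hωwin
  have hlam : ∀ n, (fun n => ∏ i ∈ Finset.range n, X i ω) n =
      2 ^ (aa (fun i => X i ω) n) * 3 ^ (n - aa (fun i => X i ω) n) := fun n => prod_eq hω23 n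
  apply exists_set hp0 hp1 (aa_le _) hlam
  intro J N0 hJ
  obtain ⟨R, hR, hRpos, hωR⟩ := hωwin J N0
  obtain ⟨w, hw, T, hh, hT, hsep, hcount⟩ := plateaux_of_window hRpos hωR
  exact ⟨w, hw, T, hh, fun j => ⟨hR.trans (hT j).1, (hT j).2⟩, hsep, hcount⟩

theorem main_not {Ω : Type*} [MeasurableSpace Ω] {P : Measure Ω} [IsProbabilityMeasure P]
    {X : ℕ → Ω → ℕ} (hX : ∀ i, Measurable (X i)) (hXi : iIndepFun X P) {p : ℝ} (hp0 : 0 < p)
    (hp1 : p < 1) (h2 : ∀ i, P.real {ω | X i ω = 2} = p)
    (h3 : ∀ i, P.real {ω | X i ω = 3} = 1 - p) :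
    ∀ᵐ ω ∂P, ∀ q : ENNReal, ¬ Khintchin q (fun n => ∏ i ∈ Finset.range n, X i ω) := by
  filter_upwards [main hX hXi hp0 hp1 h2 h3] with ω hω q hK
  obtain ⟨E, hE, hne⟩ := hω
  apply hne
  have hL : MemLp (E.indicator (1 : UnitAddCircle → ℝ)) q volume := by
    have : (E.indicator (1 : UnitAddCircle → ℝ)) = E.indicator (fun _ => (1 : ℝ)) := rfl
    rw [this]
    exact memLp_indicator_const q hE 1 (Or.inr (measure_ne_top _ _))
  have h := hK _ hL
  have hint : ∫ y, E.indicator (1 : UnitAddCircle → ℝ) y = volume.real E := by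
    rw [integral_indicator_one hE]
  rw [hint] at h
  exact h

end Pool.Agent.X143.KH
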