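import Pool.Agent.X143.KH.Base

/-!
# A weak mixing estimate for multiplication by powers of two
-/

namespace Pool.Agent.X143.KH

open MeasureTheory Filter Topology

theorem exists_good {C G : Set UnitAddCircle} (hC : MeasurableSet C) (hG : MeasurableSet G) :
    ∃ K : ℕ, 0 < K ∧ volume.real C * volume.real G / 2 ≤
      volume.real (C ∩ {x : UnitAddCircle | K • x ∈ G}) := by
  classical
  rcases eq_or_lt_of_le (show 0 ≤ volume.real C * volume.real G by positivity) with h0 | h0
  · refine ⟨1, one_pos, ?_⟩
    rw [← h0]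
    simp
  by_contra hcon
  push Not at hcon
  have herg := AddCircle.ergodic_nsmul (T := (1 : ℝ)) (n := 2) (by norm_num)
  have hf : MeasurePreserving (fun x : UnitAddCircle => 2 • x) volume volume :=
    herg.toMeasurePreserving
  set T : Lp ℝ 2 (volume : Measure UnitAddCircle) →L[ℝ] Lp ℝ 2 (volume : Measure UnitAddCircle) :=
    (Lp.compMeasurePreservingₗᵢ ℝ (fun x : UnitAddCircle => 2 • x) hf).toContinuousLinearMap with hT
  have hT1 : ‖T‖ ≤ 1 := LinearIsometry.norm_toContinuousLinearMap_le _
  have hTapp : ∀ g : Lp ℝ 2 (volume : Measure UnitAddCircle),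
      T g = Lp.compMeasurePreserving (fun x : UnitAddCircle => 2 • x) hf g := fun g => rfl
  set g : Lp ℝ 2 (volume : Measure UnitAddCircle) := indicatorConstLp 2 hG (by finiteness) (1 : ℝ)
    with hg
  set c : Lp ℝ 2 (volume : Measure UnitAddCircle) := indicatorConstLp 2 hC (by finiteness) (1 : ℝ)
    with hc
  set u : Lp ℝ 2 (volume : Measure UnitAddCircle) :=
    indicatorConstLp 2 MeasurableSet.univ (by finiteness) (1 : ℝ) with hu
  have key : ∀ k : ℕ, (T^[k]) g =
      indicatorConstLp 2 (meas_preimage (2 ^ k) hG) (by finiteness) (1 : ℝ) := by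
    intro k
    induction k with
    | zero => simp [hg]
    | succ k ih =>
      rw [Function.iterate_succ_apply', ih, hTapp, Lp.indicatorConstLp_compMeasurePreserving]
      congr 1
      ext x
      simp only [Set.mem_preimage, Set.mem_ofPred_eq, smul_smul, pow_succ]
  have lim := ContinuousLinearMap.tendsto_birkhoffAverage_orthogonalProjection T hT1 g
  set Pg := (LinearMap.eqLocus (T : Lp ℝ 2 (volume : Measure UnitAddCircle) →ₗ[ℝ] Lp ℝ 2
    (volume : Measure UnitAddCircle)) ((1 : Lp ℝ 2 (volume : Measure UnitAddCircle) →L[ℝ] Lp ℝ 2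
    (volume : Measure UnitAddCircle)) : Lp ℝ 2 (volume : Measure UnitAddCircle) →ₗ[ℝ] Lp ℝ 2
    (volume : Measure UnitAddCircle))).orthogonalProjectionOnto g with hPg
  have lim2 : Tendsto (fun M => inner ℝ c (birkhoffAverage ℝ T _root_.id M g)) atTop
      (𝓝 (inner ℝ c (Pg : Lp ℝ 2 (volume : Measure UnitAddCircle)))) :=
    (tendsto_const_nhds (x := c)).inner lim
  have hle : inner ℝ c (Pg : Lp ℝ 2 (volume : Measure UnitAddCircle)) ≤
      volume.real C * volume.real G / 2 := by
    apply le_of_tendsto' lim2
    intro M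
    rw [birkhoffAverage, birkhoffSum, inner_smul_right, inner_sum]
    rcases Nat.eq_zero_or_pos M with hM | hM
    · subst hM; simp; positivity
    · have hM' : (0 : ℝ) < M := by exact_mod_cast hM
      rw [inv_mul_le_iff₀ hM']
      calc ∑ k ∈ Finset.range M, inner ℝ c (_root_.id ((T^[k]) g))
          ≤ ∑ k ∈ Finset.range M, volume.real C * volume.real G / 2 := by
            apply Finset.sum_le_sum
            intro k _
            simp only [_root_.id]
            rw [key k, hc, L2.real_inner_indicatorConstLp_one_indicatorConstLp_one]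
            exact (hcon (2 ^ k) (by positivity)).le
        _ = _ := by rw [Finset.sum_const, Finset.card_range, nsmul_eq_mul]
  -- identify the limit
  have hfix : T (Pg : Lp ℝ 2 (volume : Measure UnitAddCircle)) = Pg := Pg.2
  have hconst : ∃ a : ℝ, ((Pg : Lp ℝ 2 (volume : Measure UnitAddCircle)) : UnitAddCircle → ℝ)
      =ᵐ[volume] Function.const _ a := by
    apply herg.ae_eq_const_of_ae_eq_comp_ae (Lp.aestronglyMeasurable _)
    have h1 := Lp.coeFn_compMeasurePreserving (Pg : Lp ℝ 2 (volume : Measure UnitAddCircle)) hf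
    rw [← hTapp, hfix] at h1
    exact h1.symm
  obtain ⟨a, ha⟩ := hconst
  have hca : inner ℝ c (Pg : Lp ℝ 2 (volume : Measure UnitAddCircle)) = a * volume.real C := by
    rw [hc, L2.inner_indicatorConstLp_one]
    rw [integral_congr_ae (ae_restrict_of_ae ha)]
    simp [mul_comm]
  have hua : inner ℝ u (Pg : Lp ℝ 2 (volume : Measure UnitAddCircle)) = a := by
    rw [hu, L2.inner_indicatorConstLp_one]
    rw [integral_congr_ae (ae_restrict_of_ae ha)]
    have hun : (volume : Measure UnitAddCircle).real Set.univ = 1 := by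
      simp [Measure.real, UnitAddCircle.measure_univ]
    simp [hun]
  have huF : T u = u := by
    rw [hTapp, hu, Lp.indicatorConstLp_compMeasurePreserving]
    rfl
  have hug : inner ℝ u (Pg : Lp ℝ 2 (volume : Measure UnitAddCircle)) = volume.real G := by
    have h2 := Submodule.inner_orthogonalProjectionOnto_eq_of_mem_left
      (K := LinearMap.eqLocus (T : Lp ℝ 2 (volume : Measure UnitAddCircle) →ₗ[ℝ] Lp ℝ 2
      (volume : Measure UnitAddCircle)) ((1 : Lp ℝ 2 (volume : Measure UnitAddCircle) →L[ℝ] Lp ℝ 2
      (volume : Measure UnitAddCircle)) : Lp ℝ 2 (volume : Measure UnitAddCircle) →ₗ[ℝ] Lp ℝ 2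
      (volume : Measure UnitAddCircle))) ⟨u, huF⟩ g
    have h3 : inner ℝ u g = volume.real G := by
      rw [hu, hg, L2.real_inner_indicatorConstLp_one_indicatorConstLp_one, Set.univ_inter]
    rw [← h3]
    exact h2
  have haG : a = volume.real G := hua.symm.trans hug
  rw [hca, haG] at hle
  nlinarith

end Pool.Agent.X143.KH
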