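import Mathlib

/-!
# Block events of a random walk
-/

namespace Pool.Agent.X143.KH

open MeasureTheory ProbabilityTheory Filter Topology

variable {Ω : Type*} [MeasurableSpace Ω] {P : Measure Ω} [IsProbabilityMeasure P] {Y : ℕ → Ω → ℝ}

/-- The increment of the walk between the times `M` and `n`. -/
def D (Y : ℕ → Ω → ℝ) (M n : ℕ) (ω : Ω) : ℝ := ∑ i ∈ Finset.Ico M n, Y i ω

omit [MeasurableSpace Ω] in
theorem D_add {M n k : ℕ} (h : M ≤ n) (h' : n ≤ k) (ω : Ω) :
    D Y M n ω + D Y n k ω = D Y M k ω := by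
  unfold D
  exact Finset.sum_Ico_consecutive _ h h'

theorem measurable_D (hYm : ∀ i, Measurable (Y i)) (M n : ℕ) : Measurable (D Y M n) := by
  unfold D
  exact Finset.measurable_sum _ (fun i _ => hYm i)

theorem memLp_Y (hYm : ∀ i, Measurable (Y i)) (hYb : ∀ i ω, |Y i ω| ≤ 1) (i : ℕ) :
    MemLp (Y i) 2 P := by
  apply MemLp.of_bound (hYm i).aestronglyMeasurable 1
  exact Eventually.of_forall (fun ω => by rw [Real.norm_eq_abs]; exact hYb i ω)

theorem integral_D (hYm : ∀ i, Measurable (Y i)) (hYb : ∀ i ω, |Y i ω| ≤ 1)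
    (h0 : ∀ i, ∫ ω, Y i ω ∂P = 0) (M n : ℕ) : ∫ ω, D Y M n ω ∂P = 0 := by
  unfold D
  rw [integral_finsetSum]
  · exact Finset.sum_eq_zero (fun i _ => h0 i)
  · intro i _
    exact (memLp_Y hYm hYb i).integrable (by norm_num)

theorem var_D (hYm : ∀ i, Measurable (Y i)) (hYi : iIndepFun Y P) (hYb : ∀ i ω, |Y i ω| ≤ 1)
    (M n : ℕ) : variance (D Y M n) P ≤ ((Finset.Ico M n).card : ℝ) := by
  have h1 : D Y M n = ∑ i ∈ Finset.Ico M n, Y i := by
    funext ω
    simp [D, Finset.sum_apply]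
  rw [h1, IndepFun.variance_sum (fun i _ => memLp_Y hYm hYb i)
    (fun i _ j _ hij => hYi.indepFun hij)]
  calc ∑ i ∈ Finset.Ico M n, variance (Y i) P ≤ ∑ i ∈ Finset.Ico M n, (1 : ℝ) := by
        apply Finset.sum_le_sum
        intro i _
        refine (variance_le_expectation_sq (hYm i).aestronglyMeasurable).trans ?_
        calc ∫ ω, (Y i ^ 2) ω ∂P ≤ ∫ _ω, (1 : ℝ) ∂P := by
              apply integral_mono_of_nonneg
              · exact Eventually.of_forall (fun ω => sq_nonneg (Y i ω))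
              · exact integrable_const _
              · apply Eventually.of_forall
                intro ω
                simp only [Pi.pow_apply]
                rw [← sq_abs]
                exact pow_le_one₀ (abs_nonneg _) (hYb i ω)
          _ = 1 := by simp
    _ = _ := by simp

theorem cheb (hYm : ∀ i, Measurable (Y i)) (hYi : iIndepFun Y P) (hYb : ∀ i ω, |Y i ω| ≤ 1)
    (h0 : ∀ i, ∫ ω, Y i ω ∂P = 0) {M n : ℕ} {w : ℝ} (hw : 0 < w)
    (hwn : 32 * ((Finset.Ico M n).card : ℝ) ≤ w ^ 2) :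
    P.real {ω | w / 2 < |D Y M n ω|} ≤ 1 / 8 := by
  have hL : MemLp (D Y M n) 2 P := by
    have h1 : D Y M n = fun ω => ∑ i ∈ Finset.Ico M n, Y i ω := rfl
    rw [h1]
    exact memLp_finsetSum _ (fun i _ => memLp_Y hYm hYb i)
  have h2 := meas_ge_le_variance_div_sq hL (c := w / 2) (by positivity)
  rw [integral_D hYm hYb h0] at h2
  simp only [sub_zero] at h2
  have h3 : P {ω | w / 2 < |D Y M n ω|} ≤ ENNReal.ofReal (1 / 8) := by
    calc P {ω | w / 2 < |D Y M n ω|} ≤ P {ω | w / 2 ≤ |D Y M n ω|} := by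
          apply measure_mono
          intro ω hω
          exact (show w / 2 < |D Y M n ω| from hω).le
      _ ≤ ENNReal.ofReal (variance (D Y M n) P / (w / 2) ^ 2) := h2
      _ ≤ ENNReal.ofReal (1 / 8) := by
          apply ENNReal.ofReal_le_ofReal
          rw [div_le_iff₀ (by positivity)]
          have := var_D hYm hYi hYb M n
          have e : (w / 2) ^ 2 = w ^ 2 / 4 := by ring
          rw [e]
          linarith
  have h4 := ENNReal.toReal_mono ENNReal.ofReal_ne_top h3
  rwa [ENNReal.toReal_ofReal (by norm_num)] at h4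

/-- The walk stays within `w/2` of its value at time `M` for at least a quarter of the times
in `(M, 2M]`, and at the time `2M`. -/
def Stay (Y : ℕ → Ω → ℝ) (w : ℝ) (M : ℕ) : Set Ω :=
  {ω | |D Y M (2 * M) ω| ≤ w / 2 ∧
    M ≤ 4 * ((Finset.Ioc M (2 * M)).filter (fun n => |D Y M n ω| ≤ w / 2)).card}

theorem stay_prob (hYm : ∀ i, Measurable (Y i)) (hYi : iIndepFun Y P) (hYb : ∀ i ω, |Y i ω| ≤ 1)
    (h0 : ∀ i, ∫ ω, Y i ω ∂P = 0) {M : ℕ} (hM : 0 < M) {w : ℝ} (hw : 0 < w)
    (hwM : 32 * (M : ℝ) ≤ w ^ 2) : 1 / 2 ≤ P.real (Stay Y w M) := by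
  classical
  set f : Ω → ℝ := fun ω => ∑ n ∈ Finset.Ioc M (2 * M),
    ({ω | w / 2 < |D Y M n ω|}).indicator (fun _ => (1 : ℝ)) ω with hf
  have hms : ∀ n, MeasurableSet {ω | w / 2 < |D Y M n ω|} := fun n =>
    measurableSet_lt measurable_const (measurable_D hYm M n).abs
  have hMR : (0 : ℝ) < M := by exact_mod_cast hM
  have hfint : ∫ ω, f ω ∂P ≤ M / 8 := by
    rw [hf, integral_finsetSum _ (fun n _ => (integrable_const (1 : ℝ)).indicator (hms n))]
    calc ∑ n ∈ Finset.Ioc M (2 * M), ∫ ω, ({ω | w / 2 < |D Y M n ω|}).indicator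
          (fun _ => (1 : ℝ)) ω ∂P ≤ ∑ n ∈ Finset.Ioc M (2 * M), (1 / 8 : ℝ) := by
          apply Finset.sum_le_sum
          intro n hn
          rw [Finset.mem_Ioc] at hn
          rw [integral_indicator_const _ (hms n), smul_eq_mul, mul_one]
          apply cheb hYm hYi hYb h0 hw
          refine le_trans ?_ hwM
          rw [Nat.card_Ico]
          have : ((n - M : ℕ) : ℝ) ≤ M := by exact_mod_cast (by omega : n - M ≤ M)
          linarith
      _ = M / 8 := by
          rw [Finset.sum_const, Nat.card_Ioc, nsmul_eq_mul]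
          rw [show 2 * M - M = M by omega]
          ring
  have hmarkov : P.real {ω | 3 * (M : ℝ) / 4 ≤ f ω} ≤ 1 / 6 := by
    have h1 := mul_meas_ge_le_integral_of_nonneg (μ := P) (f := f)
      (Eventually.of_forall (fun ω => Finset.sum_nonneg (fun n _ =>
        Set.indicator_nonneg (fun _ _ => zero_le_one) _)))
      (integrable_finsetSum _ (fun n _ => (integrable_const (1 : ℝ)).indicator (hms n)))
      (3 * (M : ℝ) / 4)
    have h2 : 3 * (M : ℝ) / 4 * P.real {ω | 3 * (M : ℝ) / 4 ≤ f ω} ≤ M / 8 := h1.trans hfint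
    have h3 : (M : ℝ) * P.real {ω | 3 * (M : ℝ) / 4 ≤ f ω} ≤ M * (1 / 6) := by linarith
    exact le_of_mul_le_mul_left h3 hMR
  have hlast : P.real {ω | w / 2 < |D Y M (2 * M) ω|} ≤ 1 / 8 := by
    apply cheb hYm hYi hYb h0 hw
    rw [Nat.card_Ico, show 2 * M - M = M by omega]
    exact hwM
  have hsub : (Stay Y w M)ᶜ ⊆ {ω | 3 * (M : ℝ) / 4 ≤ f ω} ∪ {ω | w / 2 < |D Y M (2 * M) ω|} := by
    intro ω hω
    by_cases h1 : w / 2 < |D Y M (2 * M) ω|
    · exact Or.inr h1
    · left
      rw [not_lt] at h1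
      have h2 : ¬ (M ≤ 4 * ((Finset.Ioc M (2 * M)).filter
        (fun n => |D Y M n ω| ≤ w / 2)).card) := fun h => hω ⟨h1, h⟩
      rw [not_le] at h2
      have h3 : f ω = (((Finset.Ioc M (2 * M)).filter
          (fun n => ¬ (|D Y M n ω| ≤ w / 2))).card : ℝ) := by
        rw [hf]
        simp only
        rw [Finset.card_filter]
        push_cast
        apply Finset.sum_congr rfl
        intro n _
        simp only [Set.indicator, Set.mem_ofPred_eq, not_le]
      have h4 := Finset.card_filter_add_card_filter_not (s := Finset.Ioc M (2 * M))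
        (fun n => |D Y M n ω| ≤ w / 2)
      rw [Nat.card_Ioc, show 2 * M - M = M by omega] at h4
      show 3 * (M : ℝ) / 4 ≤ f ω
      rw [h3]
      have h5 : 3 * M ≤ 4 * ((Finset.Ioc M (2 * M)).filter
          (fun n => ¬ (|D Y M n ω| ≤ w / 2))).card := by omega
      have h6 : (3 : ℝ) * M ≤ 4 * (((Finset.Ioc M (2 * M)).filter
          (fun n => ¬ (|D Y M n ω| ≤ w / 2))).card : ℝ) := by exact_mod_cast h5
      linarith
  have hmeas : MeasurableSet (Stay Y w M) := by
    have h1 : MeasurableSet {ω | |D Y M (2 * M) ω| ≤ w / 2} :=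
      measurableSet_le (measurable_D hYm M (2 * M)).abs measurable_const
    have h2 : Measurable (fun ω => ((Finset.Ioc M (2 * M)).filter
        (fun n => |D Y M n ω| ≤ w / 2)).card) := by
      have h3 : (fun ω => ((Finset.Ioc M (2 * M)).filter
        (fun n => |D Y M n ω| ≤ w / 2)).card) = fun ω => ∑ n ∈ Finset.Ioc M (2 * M),
          if |D Y M n ω| ≤ w / 2 then 1 else 0 := by
        funext ω
        rw [Finset.card_filter]
      rw [h3]
      apply Finset.measurable_sum
      intro n _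
      exact Measurable.ite (measurableSet_le (measurable_D hYm M n).abs measurable_const)
        measurable_const measurable_const
    exact h1.inter (measurableSet_le measurable_const (h2.const_mul 4))
  have h1 := measureReal_compl (μ := P) hmeas
  have h2 : P.real (Stay Y w M)ᶜ ≤ 1 / 6 + 1 / 8 := by
    calc P.real (Stay Y w M)ᶜ ≤ P.real ({ω | 3 * (M : ℝ) / 4 ≤ f ω} ∪
          {ω | w / 2 < |D Y M (2 * M) ω|}) := measureReal_mono hsub (by finiteness)
      _ ≤ _ := (measureReal_union_le _ _).trans (add_le_add hmarkov hlast)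
  have h3 : P.real Set.univ = 1 := by simp
  rw [h3] at h1
  linarith

omit [IsProbabilityMeasure P] in
theorem shift_dist (hYi : iIndepFun Y P)
    (hid : ∀ i, IdentDistrib (Y i) (Y 0) P P) (M R : ℕ) :
    IdentDistrib (D Y M (M + R)) (D Y 0 R) P P := by
  have h1 : IdentDistrib (fun ω (i : ℕ) => Y (M + i) ω) (fun ω (i : ℕ) => Y i ω) P P := by
    apply IdentDistrib.pi
    · intro i
      exact (hid (M + i)).trans (hid i).symm
    · exact hYi.precomp (g := fun i => M + i) (fun a b h => by simpa using h)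
    · exact hYi
  have hmeas : Measurable (fun v : ℕ → ℝ => ∑ i ∈ Finset.range R, v i) :=
    Finset.measurable_sum _ (fun i _ => measurable_pi_apply i)
  have h2 := h1.comp hmeas
  have e1 : (fun v : ℕ → ℝ => ∑ i ∈ Finset.range R, v i) ∘ (fun ω (i : ℕ) => Y (M + i) ω) =
      D Y M (M + R) := by
    funext ω
    unfold D
    rw [Finset.sum_Ico_eq_sum_range]
    simp
  have e2 : (fun v : ℕ → ℝ => ∑ i ∈ Finset.range R, v i) ∘ (fun ω (i : ℕ) => Y i ω) =
      D Y 0 R := by
    funext ω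
    unfold D
    rw [← Finset.range_eq_Ico]
    rfl
  rw [e1, e2] at h2
  exact h2

theorem trans_prob (hYm : ∀ i, Measurable (Y i)) (hYi : iIndepFun Y P)
    (hYb : ∀ i ω, |Y i ω| ≤ 1) (hid : ∀ i, IdentDistrib (Y i) (Y 0) P P)
    (h0 : ∀ i, ∫ ω, Y i ω ∂P = 0) (hvar : 0 < variance (Y 0) P) (κ : ℝ) :
    ∃ c : ℝ, 0 < c ∧ ∃ R1 : ℕ, ∀ R, R1 ≤ R → ∀ M,
      c ≤ P.real {ω | κ * Real.sqrt R ≤ D Y M (M + R) ω} := by
  have hv : (variance (Y 0) P).toNNReal ≠ 0 := by
    rw [Ne, Real.toNNReal_eq_zero, not_le]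
    exact hvar
  have hlaw : HasLaw (id : ℝ → ℝ) (gaussianReal 0 (variance (Y 0) P).toNNReal)
      (gaussianReal 0 (variance (Y 0) P).toNNReal) := by
    refine ⟨aemeasurable_id, ?_⟩
    simp
  have hclt := tendstoInDistribution_inv_sqrt_mul_sum_sub (P := P) (X := Y) hlaw
    (memLp_Y hYm hYb 0) hYi hid
  have hlim := ProbabilityMeasure.le_liminf_measure_open_of_tendsto hclt.tendsto
    (isOpen_Ioi (a := κ))
  set g : ENNReal := gaussianReal 0 (variance (Y 0) P).toNNReal (Set.Ioi κ) with hg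
  have hgpos : 0 < g := by
    rw [pos_iff_ne_zero]
    intro hz
    have := gaussianReal_absolutelyContinuous' 0 hv hz
    simp at this
  have hlim' : g ≤ atTop.liminf (fun n : ℕ => P {ω | κ < (Real.sqrt n)⁻¹ * (∑ k ∈ Finset.range n,
      Y k ω - n * ∫ ω, Y 0 ω ∂P)}) := by
    have e1 : ((⟨Measure.map id (gaussianReal 0 (variance (Y 0) P).toNNReal), 
        Measure.isProbabilityMeasure_map hclt.aemeasurable_limit⟩ : ProbabilityMeasure ℝ) :
          Measure ℝ) (Set.Ioi κ) = g := by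
      simp [hg]
    rw [← e1]
    refine hlim.trans (le_of_eq ?_)
    congr 1
    funext n
    show (P.map _) (Set.Ioi κ) = _
    rw [Measure.map_apply_of_aemeasurable (hclt.forall_aemeasurable n) measurableSet_Ioi]
    rfl
  have hlt : g / 2 < atTop.liminf (fun n : ℕ => P {ω | κ < (Real.sqrt n)⁻¹ *
      (∑ k ∈ Finset.range n, Y k ω - n * ∫ ω, Y 0 ω ∂P)}) := by
    refine lt_of_lt_of_le (ENNReal.half_lt_self hgpos.ne' ?_) hlim'
    rw [hg]
    finiteness
  have hev := eventually_lt_of_lt_liminf hlt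
  rw [eventually_atTop] at hev
  obtain ⟨R1, hR1⟩ := hev
  have hgtop : g ≠ ⊤ := by rw [hg]; finiteness
  refine ⟨(g / 2).toReal, ?_, R1 + 1, ?_⟩
  · apply ENNReal.toReal_pos
    · simp [hgpos.ne']
    · exact ENNReal.div_ne_top hgtop (by norm_num)
  · intro R hR M
    have h1 := hR1 R (by omega)
    have hRpos : (0 : ℝ) < Real.sqrt R := by
      apply Real.sqrt_pos.2
      exact_mod_cast (by omega : 0 < R)
    have h2 : P {ω | κ < (Real.sqrt R)⁻¹ * (∑ k ∈ Finset.range R, Y k ω - R * ∫ ω, Y 0 ω ∂P)} ≤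
        P {ω | κ * Real.sqrt R ≤ D Y 0 R ω} := by
      apply measure_mono
      intro ω hω
      simp only [Set.mem_ofPred_eq] at hω ⊢
      rw [h0 0, mul_zero, sub_zero, inv_mul_eq_div, lt_div_iff₀ hRpos] at hω
      unfold D
      rw [← Finset.range_eq_Ico]
      exact hω.le
    have h3 : P {ω | κ * Real.sqrt R ≤ D Y 0 R ω} = P {ω | κ * Real.sqrt R ≤ D Y M (M + R) ω} := by
      have := (shift_dist hYi hid M R).measure_mem_eq (s := Set.Ici (κ * Real.sqrt R))
        measurableSet_Ici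
      exact this.symm
    rw [h3] at h2
    exact ENNReal.toReal_mono (by finiteness) (h1.le.trans h2)

end Pool.Agent.X143.KH
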