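import Pool.Agent.X143.KH.Prob
import Pool.Agent.X143.KH.Det

/-!
# Windows with separated plateaux occur infinitely often
-/

namespace Pool.Agent.X143.KH

open MeasureTheory ProbabilityTheory Filter Topology

variable {Ω : Type*} [mΩ : MeasurableSpace Ω] {P : Measure Ω} [IsProbabilityMeasure P]
  {X : ℕ → Ω → ℕ} {φ : ℕ → ℝ}

/-- The sigma-algebra of the letters with index in `I`. -/
@[reducible] def sg (X : ℕ → Ω → ℕ) (I : Set ℕ) : MeasurableSpace Ω :=
  ⨆ i ∈ I, MeasurableSpace.comap (X i) inferInstance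

omit mΩ in
theorem sg_mono {I I' : Set ℕ} (h : I ⊆ I') : sg X I ≤ sg X I' :=
  biSup_mono (fun _ hi => h hi)

theorem sg_le (hX : ∀ i, Measurable (X i)) (I : Set ℕ) : sg X I ≤ mΩ :=
  iSup₂_le (fun i _ => (hX i).comap_le)

omit mΩ in
theorem sg_D (I : Set ℕ) {M n : ℕ} (h : Set.Ico M n ⊆ I) :
    Measurable[sg X I] (D (fun i ω => φ (X i ω)) M n) := by
  unfold D
  apply @Finset.measurable_sum _ _ _ _ _ _ (sg X I) _ _
  intro i hi
  rw [Finset.mem_Ico] at hi
  have h1 : Measurable[sg X I] (X i) := by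
    intro s hs
    have h2 : MeasurableSet[MeasurableSpace.comap (X i) inferInstance] (X i ⁻¹' s) := ⟨s, hs, rfl⟩
    have h3 : MeasurableSpace.comap (X i) inferInstance ≤ sg X I :=
      le_iSup₂_of_le i (h ⟨hi.1, hi.2⟩) le_rfl
    exact h3 _ h2
  exact (measurable_of_countable φ).comp h1

omit mΩ in
theorem sg_trans (I : Set ℕ) {M R : ℕ} (h : Set.Ico M (M + R) ⊆ I) (w : ℝ) :
    MeasurableSet[sg X I] {ω | 2 * w ≤ D (fun i ω => φ (X i ω)) M (M + R) ω} := by
  let _ : MeasurableSpace Ω := sg X I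
  exact measurableSet_le measurable_const (sg_D I h)

omit mΩ in
theorem sg_stay (I : Set ℕ) {M : ℕ} (h : Set.Ico M (2 * M) ⊆ I) (w : ℝ) :
    MeasurableSet[sg X I] (Stay (fun i ω => φ (X i ω)) w M) := by
  classical
  let _ : MeasurableSpace Ω := sg X I
  have hD : ∀ n, n ≤ 2 * M → Measurable (D (fun i ω => φ (X i ω)) M n) := by
    intro n hn
    apply sg_D
    intro i hi
    exact h ⟨hi.1, lt_of_lt_of_le hi.2 hn⟩
  have h1 : MeasurableSet {ω | |D (fun i ω => φ (X i ω)) M (2 * M) ω| ≤ w / 2} :=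
    measurableSet_le (hD _ le_rfl).abs measurable_const
  have h2 : Measurable (fun ω => ((Finset.Ioc M (2 * M)).filter
      (fun n => |D (fun i ω => φ (X i ω)) M n ω| ≤ w / 2)).card) := by
    have h3 : (fun ω => ((Finset.Ioc M (2 * M)).filter
      (fun n => |D (fun i ω => φ (X i ω)) M n ω| ≤ w / 2)).card) =
        fun ω => ∑ n ∈ Finset.Ioc M (2 * M),
        if |D (fun i ω => φ (X i ω)) M n ω| ≤ w / 2 then 1 else 0 := by
      funext ω
      rw [Finset.card_filter]
    rw [h3]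
    apply Finset.measurable_sum
    intro n hn
    rw [Finset.mem_Ioc] at hn
    exact Measurable.ite (measurableSet_le (hD n hn.2).abs measurable_const)
      measurable_const measurable_const
  exact h1.inter (measurableSet_le measurable_const (h2.const_mul 4))

omit [IsProbabilityMeasure P] in
theorem indep_sg (hX : ∀ i, Measurable (X i)) (hXi : iIndepFun X P) {I I' : Set ℕ}
    (h : Disjoint I I') : Indep (sg X I) (sg X I') P :=
  indep_iSup_of_disjoint (fun i => (hX i).comap_le) hXi.iIndep h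

theorem prod_lower (hX : ∀ i, Measurable (X i)) (hXi : iIndepFun X P) {τ : ℕ → ℕ}
    (hτ : Monotone τ) {A : ℕ → Set Ω}
    (hA : ∀ k, MeasurableSet[sg X (Set.Ico (τ k) (τ (k + 1)))] (A k)) {c : ℝ} (hc : 0 ≤ c)
    (K : ℕ) (hPA : ∀ k < K, c ≤ P.real (A k)) :
    MeasurableSet[sg X (Set.Ico (τ 0) (τ K))] {ω | ∀ k < K, ω ∈ A k} ∧
      c ^ K ≤ P.real {ω | ∀ k < K, ω ∈ A k} := by
  induction K with
  | zero =>
    constructor
    · simp
    · simp
  | succ K ih =>
    obtain ⟨h1, h2⟩ := ih (fun k hk => hPA k (by omega))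
    have hset : {ω | ∀ k < K + 1, ω ∈ A k} = {ω | ∀ k < K, ω ∈ A k} ∩ A K := by
      ext ω
      simp only [Set.mem_ofPred_eq, Set.mem_inter_iff]
      constructor
      · intro h
        exact ⟨fun k hk => h k (by omega), h K (by omega)⟩
      · rintro ⟨h, h'⟩ k hk
        rcases Nat.lt_succ_iff_lt_or_eq.1 hk with h3 | h3
        · exact h k h3
        · rw [h3]; exact h'
    constructor
    · rw [hset]
      apply @MeasurableSet.inter _ (sg X _)
      · exact sg_mono (Set.Ico_subset_Ico_right (hτ (Nat.le_succ K))) _ h1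
      · exact sg_mono (Set.Ico_subset_Ico_left (hτ (Nat.zero_le K))) _ (hA K)
    · rw [hset]
      have hind := indep_sg (P := P) hX hXi (I := Set.Ico (τ 0) (τ K))
        (I' := Set.Ico (τ K) (τ (K + 1))) (by
          rw [Set.disjoint_left]
          intro x hx hx'
          exact absurd hx.2 (not_lt.2 hx'.1))
      have h3 := (Indep_iff _ _ P).1 hind _ _ h1 (hA K)
      rw [Measure.real, h3, ENNReal.toReal_mul]
      rw [pow_succ]
      exact mul_le_mul h2 (hPA K (by omega)) hc ENNReal.toReal_nonneg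

/-- The block times (for `R = 1`). -/
def tt : ℕ → ℕ
  | 0 => 1
  | k + 1 => if k % 2 = 0 then tt k + 1 else 2 * tt k

theorem tt_pos (k : ℕ) : 0 < tt k := by
  induction k with
  | zero => simp [tt]
  | succ k ih =>
    unfold tt
    split_ifs <;> omega

theorem tt_mono : Monotone tt := by
  apply monotone_nat_of_le_succ
  intro k
  have := tt_pos k
  rw [tt]
  split_ifs <;> omega

theorem tt_even {k : ℕ} (h : k % 2 = 0) : tt (k + 1) = tt k + 1 := by
  rw [tt, if_pos h]

theorem tt_odd {k : ℕ} (h : ¬ k % 2 = 0) : tt (k + 1) = 2 * tt k := by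
  rw [tt, if_neg h]

/-- The width. -/
noncomputable def ww (J R : ℕ) : ℝ := Real.sqrt (32 * (tt (2 * J) : ℝ)) * Real.sqrt R

/-- The block events. -/
def AA (Y : ℕ → Ω → ℝ) (J R k : ℕ) : Set Ω :=
  if k % 2 = 0 then {ω | 2 * ww J R ≤ D Y (R * tt k) (R * tt k + R) ω}
  else Stay Y (ww J R) (R * tt k)

/-- The window event. -/
def WW (Y : ℕ → Ω → ℝ) (J R : ℕ) : Set Ω := {ω | ∀ k < 2 * J, ω ∈ AA Y J R k}

theorem ww_pos {J R : ℕ} (hR : 0 < R) : 0 < ww J R := by
  unfold ww
  have h1 : (0 : ℝ) < tt (2 * J) := by exact_mod_cast tt_pos _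
  have h2 : (0 : ℝ) < R := by exact_mod_cast hR
  positivity

theorem ww_sq (J R : ℕ) : (ww J R) ^ 2 = 32 * (tt (2 * J) : ℝ) * R := by
  unfold ww
  rw [mul_pow, Real.sq_sqrt (by positivity), Real.sq_sqrt (by positivity)]

theorem window_prob (hX : ∀ i, Measurable (X i)) (hXi : iIndepFun X P)
    (hφb : ∀ i ω, |φ (X i ω)| ≤ 1)
    (hid : ∀ i, IdentDistrib (fun ω => φ (X i ω)) (fun ω => φ (X 0 ω)) P P)
    (h0 : ∀ i, ∫ ω, φ (X i ω) ∂P = 0) (hvar : 0 < variance (fun ω => φ (X 0 ω)) P) (J : ℕ) :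
    ∃ c : ℝ, 0 < c ∧ ∃ R1 : ℕ, 0 < R1 ∧ ∀ R, R1 ≤ R →
      c ≤ P.real (WW (fun i ω => φ (X i ω)) J R) ∧
      MeasurableSet[sg X (Set.Ici R)] (WW (fun i ω => φ (X i ω)) J R) := by
  set Y : ℕ → Ω → ℝ := fun i ω => φ (X i ω) with hY
  have hYm : ∀ i, Measurable (Y i) := fun i => (measurable_of_countable φ).comp (hX i)
  have hYi : iIndepFun Y P := hXi.comp (fun _ => φ) (fun _ => measurable_of_countable φ)
  obtain ⟨c0, hc0, R1, hR1⟩ := trans_prob (P := P) hYm hYi hφb hid h0 hvar
    (2 * Real.sqrt (32 * (tt (2 * J) : ℝ)))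
  have hc : 0 < min c0 (1 / 2) := lt_min hc0 (by norm_num)
  refine ⟨(min c0 (1 / 2)) ^ (2 * J), by positivity, R1 + 1, by omega, ?_⟩
  intro R hR
  have hRpos : 0 < R := by omega
  have hmeas : ∀ k, MeasurableSet[sg X (Set.Ico (R * tt k) (R * tt (k + 1)))] (AA Y J R k) := by
    intro k
    unfold AA
    split_ifs with hk
    · apply sg_trans
      rw [tt_even hk, Nat.mul_add, Nat.mul_one]
    · apply sg_stay
      rw [tt_odd hk]
      have : R * (2 * tt k) = 2 * (R * tt k) := by ring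
      rw [this]
  have hlow : ∀ k < 2 * J, min c0 (1 / 2) ≤ P.real (AA Y J R k) := by
    intro k hk
    unfold AA
    split_ifs with hk2
    · refine (min_le_left _ _).trans ?_
      have := hR1 R (by omega) (R * tt k)
      unfold ww
      rw [← mul_assoc]
      exact this
    · refine (min_le_right _ _).trans ?_
      have hpos : 0 < R * tt k := Nat.mul_pos hRpos (tt_pos k)
      apply stay_prob hYm hYi hφb h0 hpos (ww_pos hRpos)
      rw [ww_sq]
      have h1 : (tt k : ℝ) ≤ tt (2 * J) := by exact_mod_cast tt_mono hk.le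
      push_cast
      have h2 : (0 : ℝ) < R := by exact_mod_cast hRpos
      nlinarith
  have hmono : Monotone (fun k => R * tt k) := fun a b hab => Nat.mul_le_mul_left R (tt_mono hab)
  obtain ⟨h1, h2⟩ := prod_lower (P := P) hX hXi hmono hmeas hc.le (2 * J) hlow
  refine ⟨h2, ?_⟩
  apply sg_mono _ _ h1
  intro x hx
  have : R * tt 0 = R := by simp [tt]
  rw [Set.mem_Ico, this] at hx
  exact hx.1

theorem window_io (hX : ∀ i, Measurable (X i)) (hXi : iIndepFun X P)
    (hφb : ∀ i ω, |φ (X i ω)| ≤ 1)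
    (hid : ∀ i, IdentDistrib (fun ω => φ (X i ω)) (fun ω => φ (X 0 ω)) P P)
    (h0 : ∀ i, ∫ ω, φ (X i ω) ∂P = 0) (hvar : 0 < variance (fun ω => φ (X 0 ω)) P) (J : ℕ) :
    ∀ᵐ ω ∂P, ∀ n, ∃ R, n ≤ R ∧ 0 < R ∧ ω ∈ WW (fun i ω => φ (X i ω)) J R := by
  obtain ⟨c, hc, R1, hR1pos, hR1⟩ := window_prob (P := P) hX hXi hφb hid h0 hvar J
  set W : ℕ → Set Ω := fun R => WW (fun i ω => φ (X i ω)) J R with hW
  set H : ℕ → Set Ω := fun n => ⋃ R ≥ n + R1, W R with hH
  have hHtail : ∀ n m, n ≤ m → MeasurableSet[sg X (Set.Ici n)] (H m) := by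
    intro n m hnm
    apply @MeasurableSet.iUnion _ _ (sg X _)
    intro R
    apply @MeasurableSet.iUnion _ _ (sg X _)
    intro hR
    have hR' : m + R1 ≤ R := hR
    exact sg_mono (Set.Ici_subset_Ici.2 (by omega)) _ (hR1 R (by omega)).2
  have hHanti : Antitone H := by
    intro n m hnm x hx
    simp only [hH, Set.mem_iUnion] at hx ⊢
    obtain ⟨i, hi, hx⟩ := hx
    exact ⟨i, by have : m + R1 ≤ i := hi
                 show n + R1 ≤ i
                 omega, hx⟩
  have hHm : ∀ n, MeasurableSet (H n) := fun n => sg_le hX _ _ (hHtail n n le_rfl)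
  have hlim := tendsto_measure_iInter_atTop (μ := P)
    (fun n => (hHm n).nullMeasurableSet) hHanti ⟨0, measure_ne_top _ _⟩
  have hge : ENNReal.ofReal c ≤ P (⋂ n, H n) := by
    apply ge_of_tendsto' hlim
    intro n
    have h1 : P (W (n + R1)) ≤ P (H n) := by
      apply measure_mono
      intro x hx
      simp only [hH, Set.mem_iUnion]
      exact ⟨n + R1, le_rfl, hx⟩
    refine le_trans ?_ h1
    rw [← ENNReal.ofReal_toReal (measure_ne_top P (W (n + R1)))]
    exact ENNReal.ofReal_le_ofReal (hR1 (n + R1) (by omega)).1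
  have htail : MeasurableSet[limsup (fun i => MeasurableSpace.comap (X i) inferInstance) atTop]
      (⋂ n, H n) := by
    rw [limsup_eq_iInf_iSup_of_nat]
    rw [MeasurableSpace.measurableSet_iInf]
    intro n
    have h1 : (⋂ m, H m) = ⋂ m, H (n + m) := by
      apply Set.Subset.antisymm
      · intro x hx
        rw [Set.mem_iInter] at hx ⊢
        exact fun m => hx (n + m)
      · intro x hx
        rw [Set.mem_iInter] at hx ⊢
        exact fun m => hHanti (Nat.le_add_left m n) (hx m)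
    rw [h1]
    have h2 : (⨆ i, ⨆ (_ : i ≥ n), MeasurableSpace.comap (X i) inferInstance) =
      sg X (Set.Ici n) := rfl
    rw [h2]
    apply @MeasurableSet.iInter _ _ (sg X _)
    intro m
    exact hHtail n (n + m) (Nat.le_add_right n m)
  have h01 := measure_zero_or_one_of_measurableSet_limsup_atTop
    (fun i => (hX i).comap_le) hXi.iIndep htail
  have hone : P (⋂ n, H n) = 1 := by
    rcases h01 with h | h
    · exfalso
      rw [h] at hge
      have : 0 < ENNReal.ofReal c := ENNReal.ofReal_pos.2 hc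
      exact absurd hge (not_le.2 this)
    · exact h
  have hae : ∀ᵐ ω ∂P, ω ∈ ⋂ n, H n := by
    rw [← mem_ae_iff_prob_eq_one₀] at hone
    · exact hone
    · exact (MeasurableSet.iInter hHm).nullMeasurableSet
  filter_upwards [hae] with ω hω n
  have h1 := Set.mem_iInter.1 hω n
  simp only [hH, Set.mem_iUnion] at h1
  obtain ⟨R, hR, hωR⟩ := h1
  have hR' : n + R1 ≤ R := hR
  exact ⟨R, by omega, by omega, hωR⟩

end Pool.Agent.X143.KH
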